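import Mathlib

set_option autoImplicit false

/-!
# Complexes and the numbers `a` and `b`

The definitions of complexes, combinatorial equivalence and the numbers `a` and `b` are taken from
the library module `R_seed8/Results/MP_c5a51c_co/PolyhedralCounterexample`.
-/

namespace Pool.Agent.H57.LinDim

/-- A convex polytope in `ℝⁿ`: the convex hull of a nonempty finite set of points. -/
def IsPolytope {n : ℕ} (P : Set (EuclideanSpace ℝ (Fin n))) : Prop :=
  ∃ s : Finset (EuclideanSpace ℝ (Fin n)), s.Nonempty ∧ P = convexHull ℝ (s : Set _)

/-- `F` is a (nonempty) face of `P`: it is nonempty and it is the set of the points of `P` at which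
some continuous linear functional attains its maximum over `P` (`P` itself is a face of `P`). For
polytopes these are exactly the nonempty faces. -/
def IsFace {E : Type} [NormedAddCommGroup E] [NormedSpace ℝ E] (F P : Set E) : Prop :=
  F.Nonempty ∧ IsExposed ℝ P F

/-- A complex in `ℝⁿ`: a finite collection of convex polytopes such that every (nonempty) face of a
member is a member, and such that any two members which meet do so in a common face of both. (The
empty face is not listed among the members.) -/
structure Cplx (n : ℕ) where
  members : Set (Set (EuclideanSpace ℝ (Fin n)))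
  finite : members.Finite
  polytope : ∀ P ∈ members, IsPolytope P
  face_mem : ∀ P ∈ members, ∀ F, IsFace F P → F ∈ members
  inter : ∀ P ∈ members, ∀ Q ∈ members, (P ∩ Q).Nonempty → IsFace (P ∩ Q) P ∧ IsFace (P ∩ Q) Q

/-- A complex is a `2`-complex if all its members have dimension at most two. -/
def IsTwoComplex {n : ℕ} (C : Cplx n) : Prop :=
  ∀ P ∈ C.members, Module.finrank ℝ (vectorSpan ℝ P) ≤ 2

/-- Combinatorial equivalence: a bijection of the members preserving inclusion in both
directions. -/
def CombEquiv {m n : ℕ} (C : Cplx m) (D : Cplx n) : Prop :=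
  ∃ e : C.members ≃ D.members, ∀ P Q : C.members, P.1 ⊆ Q.1 ↔ (e P).1 ⊆ (e Q).1

/-- `set C`, the union of all members. -/
def Cplx.support {n : ℕ} (C : Cplx n) : Set (EuclideanSpace ℝ (Fin n)) := ⋃₀ C.members

/-- `a(C)`: the least `m` such that `ℝᵐ` contains a subset homeomorphic to `set C`. -/
noncomputable def aDim {n : ℕ} (C : Cplx n) : ℕ :=
  sInf {m : ℕ | ∃ T : Set (EuclideanSpace ℝ (Fin m)), Nonempty (C.support ≃ₜ T)}

/-- `b(C)`: the least `m` such that `ℝᵐ` contains a complex combinatorially equivalent to `C`. -/
noncomputable def bDim {n : ℕ} (C : Cplx n) : ℕ :=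
  sInf {m : ℕ | ∃ D : Cplx m, CombEquiv C D}

/-- A complex is simplicial if all its members are simplices: convex hulls of affinely independent
finite sets. -/
def IsSimplicial {n : ℕ} (C : Cplx n) : Prop :=
  ∀ P ∈ C.members, ∃ s : Finset (EuclideanSpace ℝ (Fin n)),
    AffineIndependent ℝ ((↑) : s → EuclideanSpace ℝ (Fin n)) ∧ P = convexHull ℝ (s : Set _)

end Pool.Agent.H57.LinDim
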