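import Mathlib
import Pool.Agent.H57.LinDim.Defs

set_option autoImplicit false
set_option linter.unusedSectionVars false
set_option linter.unusedVariables false

/-!
# Polytopal complexes: basic lemmas

The basic lemmas on complexes in this file are taken from the library module
`R_seed8/Results/MP_c5a51c_co/PolyhedralCounterexample`; so is the proof that the sphere does not
embed into the plane.
-/

namespace Pool.Agent.H57.LinDim

section part0

open Set

/-! ### Convex hulls of indexed families -/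

variable {ι E : Type} [DecidableEq ι] [NormedAddCommGroup E] [NormedSpace ℝ E]

/-- convex hull of the points `p i`, `i ∈ s` -/
def hull (p : ι → E) (s : Finset ι) : Set E := convexHull ℝ (p '' (s : Set ι))

lemma mem_hull_iff (p : ι → E) (s : Finset ι) (z : E) :
    z ∈ hull p s ↔ ∃ w : ι → ℝ, (∀ i ∈ s, 0 ≤ w i) ∧ ∑ i ∈ s, w i = 1 ∧
      ∑ i ∈ s, w i • p i = z := by
  constructor
  · intro hz
    have hconv : Convex ℝ {z : E | ∃ w : ι → ℝ, (∀ i ∈ s, 0 ≤ w i) ∧ ∑ i ∈ s, w i = 1 ∧
      ∑ i ∈ s, w i • p i = z} := by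
      rintro x ⟨w, hw0, hw1, rfl⟩ y ⟨w', hw0', hw1', rfl⟩ a b ha hb hab
      refine ⟨fun i => a * w i + b * w' i, ?_, ?_, ?_⟩
      · intro i hi
        exact add_nonneg (mul_nonneg ha (hw0 i hi)) (mul_nonneg hb (hw0' i hi))
      · rw [Finset.sum_add_distrib, ← Finset.mul_sum, ← Finset.mul_sum, hw1, hw1']
        linarith
      · rw [Finset.smul_sum, Finset.smul_sum, ← Finset.sum_add_distrib]
        refine Finset.sum_congr rfl (fun i _ => ?_)
        rw [add_smul, mul_smul, mul_smul]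
    have hsub : p '' (s : Set ι) ⊆ {z : E | ∃ w : ι → ℝ, (∀ i ∈ s, 0 ≤ w i) ∧ ∑ i ∈ s, w i = 1 ∧
      ∑ i ∈ s, w i • p i = z} := by
      rintro _ ⟨i, hi, rfl⟩
      have hi' : i ∈ s := hi
      refine ⟨fun j => if j = i then 1 else 0, ?_, ?_, ?_⟩
      · intro j _
        dsimp only
        split_ifs <;> norm_num
      · rw [Finset.sum_ite_eq', if_pos hi']
      · simp only [ite_smul, one_smul, zero_smul]
        rw [Finset.sum_ite_eq', if_pos hi']
    exact convexHull_min hsub hconv hz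
  · rintro ⟨w, hw0, hw1, rfl⟩
    exact (convex_convexHull ℝ _).sum_mem hw0 hw1
      (fun i hi => subset_convexHull ℝ _ ⟨i, hi, rfl⟩)

lemma convex_hull (p : ι → E) (s : Finset ι) : Convex ℝ (hull p s) := convex_convexHull ℝ _

lemma vertex_mem_hull (p : ι → E) {s : Finset ι} {i : ι} (hi : i ∈ s) : p i ∈ hull p s :=
  subset_convexHull ℝ _ ⟨i, hi, rfl⟩

lemma hull_mono (p : ι → E) {s t : Finset ι} (h : s ⊆ t) : hull p s ⊆ hull p t :=
  convexHull_mono (Set.image_mono (by exact_mod_cast h))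

lemma hull_singleton (p : ι → E) (i : ι) : hull p {i} = {p i} := by
  unfold hull
  rw [Finset.coe_singleton, Set.image_singleton, convexHull_singleton]

lemma hull_empty (p : ι → E) : hull p ∅ = ∅ := by
  unfold hull
  rw [Finset.coe_empty, Set.image_empty, convexHull_empty]

lemma hull_nonempty {p : ι → E} {s : Finset ι} {z : E} (h : z ∈ hull p s) : s.Nonempty := by
  rw [Finset.nonempty_iff_ne_empty]
  rintro rfl
  rw [hull_empty] at h
  exact h

lemma isCompact_hull (p : ι → E) (s : Finset ι) : IsCompact (hull p s) :=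
  (s.finite_toSet.image p).isCompact_convexHull ℝ

lemma isClosed_hull (p : ι → E) (s : Finset ι) : IsClosed (hull p s) := (isCompact_hull p s).isClosed

/-- a linear functional which is at most `c` on the vertices is at most `c` on the hull -/
lemma le_on_hull {p : ι → E} {s : Finset ι} (f : E →ₗ[ℝ] ℝ) (c : ℝ) (h : ∀ i ∈ s, f (p i) ≤ c)
    {z : E} (hz : z ∈ hull p s) : f z ≤ c := by
  obtain ⟨w, hw0, hw1, rfl⟩ := (mem_hull_iff p s z).mp hz
  rw [map_sum]
  calc ∑ i ∈ s, f (w i • p i) = ∑ i ∈ s, w i * f (p i) := by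
        refine Finset.sum_congr rfl (fun i _ => ?_)
        rw [map_smul, smul_eq_mul]
    _ ≤ ∑ i ∈ s, w i * c := Finset.sum_le_sum (fun i hi => mul_le_mul_of_nonneg_left (h i hi) (hw0 i hi))
    _ = c := by rw [← Finset.sum_mul, hw1, one_mul]

/-- where a functional attains its maximum on the vertices of a hull -/
lemma mem_hull_of_eq {p : ι → E} {s t : Finset ι} (hts : t ⊆ s) (f : E →ₗ[ℝ] ℝ) (c : ℝ)
    (h : ∀ i ∈ s, i ∉ t → f (p i) < c) (ht : ∀ i ∈ t, f (p i) = c)
    {z : E} (hz : z ∈ hull p s) (hfz : f z = c) : z ∈ hull p t := by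
  obtain ⟨w, hw0, hw1, hwz⟩ := (mem_hull_iff p s z).mp hz
  have h1 : ∑ i ∈ s, w i * (c - f (p i)) = 0 := by
    have : ∑ i ∈ s, w i * f (p i) = c := by
      rw [← hfz, ← hwz, map_sum]
      refine Finset.sum_congr rfl (fun i _ => ?_)
      rw [map_smul, smul_eq_mul]
    simp_rw [mul_sub]
    rw [Finset.sum_sub_distrib, ← Finset.sum_mul, hw1, this]
    ring
  have h2 : ∀ i ∈ s, w i * (c - f (p i)) = 0 := by
    rw [Finset.sum_eq_zero_iff_of_nonneg] at h1
    · exact h1
    · intro i hi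
      apply mul_nonneg (hw0 i hi)
      by_cases hit : i ∈ t
      · rw [ht i hit]; linarith
      · linarith [h i hi hit]
  have h3 : ∀ i ∈ s, i ∉ t → w i = 0 := by
    intro i hi hit
    rcases mul_eq_zero.mp (h2 i hi) with h4 | h4
    · exact h4
    · exact absurd h4 (by linarith [h i hi hit])
  rw [mem_hull_iff]
  refine ⟨w, fun i hi => hw0 i (hts hi), ?_, ?_⟩
  · rw [← hw1]
    exact Finset.sum_subset hts (fun i hi hit => h3 i hi hit)
  · rw [← hwz]
    apply Finset.sum_subset hts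
    intro i hi hit
    rw [h3 i hi hit, zero_smul]

/-! ### Vertices of polytopes -/

/-- a polytope is the convex hull of those of its points which are faces -/
lemma polytope_vertices (P : Set E) (s : Finset E) (hP : P = convexHull ℝ (s : Set E)) (z : E)
    (hz : z ∈ P) : z ∈ convexHull ℝ {x | IsFace {x} P} := by
  classical
  -- a minimal generating set
  obtain ⟨t, ht1, ht2⟩ : ∃ t : Finset E, P = convexHull ℝ (t : Set E) ∧
      ∀ t' : Finset E, P = convexHull ℝ (t' : Set E) → t.card ≤ t'.card := by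
    have hex : ∃ k : ℕ, ∃ t : Finset E, P = convexHull ℝ (t : Set E) ∧ t.card = k := ⟨_, s, hP, rfl⟩
    obtain ⟨t, ht, htk⟩ := Nat.find_spec hex
    refine ⟨t, ht, fun t' ht' => ?_⟩
    rw [htk]
    exact Nat.find_min' hex ⟨t', ht', rfl⟩
  have hface : ∀ v ∈ t, IsFace {v} P := by
    intro v hv
    have hnot : v ∉ convexHull ℝ ((t.erase v : Finset E) : Set E) := by
      intro hmem
      have h1 : P = convexHull ℝ ((t.erase v : Finset E) : Set E) := by
        rw [ht1]
        apply Set.Subset.antisymm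
        · apply convexHull_min _ (convex_convexHull ℝ _)
          intro x hx
          by_cases hxv : x = v
          · rw [hxv]; exact hmem
          · exact subset_convexHull ℝ _ (Finset.mem_coe.mpr (Finset.mem_erase.mpr ⟨hxv, hx⟩))
        · exact convexHull_mono (by exact_mod_cast Finset.erase_subset v t)
      have h2 := ht2 _ h1
      rw [Finset.card_erase_of_mem hv] at h2
      have h3 := Finset.card_pos.mpr ⟨v, hv⟩
      omega
    have hclosed : IsClosed (convexHull ℝ ((t.erase v : Finset E) : Set E)) :=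
      (t.erase v).finite_toSet.isClosed_convexHull ℝ
    obtain ⟨l, u, hl1, hl2⟩ := geometric_hahn_banach_closed_point (convex_convexHull ℝ _) hclosed hnot
    refine ⟨Set.singleton_nonempty v, fun _ => ⟨l, ?_⟩⟩
    have hlt : ∀ x ∈ t, x ≠ v → l x < l v := fun x hx hxv =>
      (hl1 x (subset_convexHull ℝ _ (Finset.mem_coe.mpr (Finset.mem_erase.mpr ⟨hxv, hx⟩)))).trans hl2
    have hPh : P = hull (id : E → E) t := by
      rw [ht1]; unfold hull; rw [Set.image_id]
    have hvP : v ∈ P := by rw [ht1]; exact subset_convexHull ℝ _ hv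
    apply Set.Subset.antisymm
    · rintro x rfl
      refine ⟨hvP, fun y hy => ?_⟩
      rw [hPh] at hy
      apply le_on_hull (p := (id : E → E)) l.toLinearMap (l x) _ hy
      intro i hi
      by_cases hiv : i = x
      · rw [hiv]; exact le_rfl
      · exact (hlt i hi hiv).le
    · rintro x ⟨hx, hx2⟩
      have h1 : l x = l v := by
        apply le_antisymm _ (hx2 v hvP)
        rw [hPh] at hx
        apply le_on_hull (p := (id : E → E)) l.toLinearMap (l v) _ hx
        intro i hi
        by_cases hiv : i = v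
        · rw [hiv]; exact le_rfl
        · exact (hlt i hi hiv).le
      rw [hPh] at hx
      have h2 := mem_hull_of_eq (p := (id : E → E)) (s := t) (t := {v})
        (Finset.singleton_subset_iff.mpr hv) l.toLinearMap (l v)
        (fun i hi hi2 => hlt i hi (by simpa using hi2)) (by intro i hi; rw [Finset.mem_singleton.mp hi]; rfl)
        hx h1
      rw [hull_singleton] at h2
      exact h2
  have h1 : (t : Set E) ⊆ {x | IsFace {x} P} := fun x hx => hface x hx
  rw [ht1] at hz
  exact convexHull_mono h1 hz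

/-! ### Realisations -/

/-- the points `p` realise the abstract complex `M` -/
structure Rlz (M : Finset (Finset ι)) (p : ι → E) : Prop where
  inj : Function.Injective p
  face : ∀ s ∈ M, ∀ t ∈ M, t ⊆ s → IsFace (hull p t) (hull p s)
  face' : ∀ s ∈ M, ∀ F, IsFace F (hull p s) → ∃ t ∈ M, t ⊆ s ∧ F = hull p t
  inter : ∀ s ∈ M, ∀ t ∈ M, ∀ z, z ∈ hull p s → z ∈ hull p t →
    ∃ r ∈ M, r ⊆ s ∧ r ⊆ t ∧ z ∈ hull p r

/-- every complex combinatorially equivalent to the complex given by `M` and `q` is a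
realisation of `M` -/
lemma real_of_equiv {ι : Type} [DecidableEq ι] {m n : ℕ} (M : Finset (Finset ι))
    (q : ι → EuclideanSpace ℝ (Fin m)) (hne : ∀ s ∈ M, s.Nonempty) (hsing : ∀ i : ι, {i} ∈ M)
    (hsub : ∀ s ∈ M, ∀ t ∈ M, (hull q s ⊆ hull q t ↔ s ⊆ t))
    (C : Cplx m) (hC : C.members = (fun s => hull q s) '' (M : Set (Finset ι)))
    (D : Cplx n) (hD : CombEquiv C D) :
    ∃ p : ι → EuclideanSpace ℝ (Fin n), Rlz M p := by
  classical
  obtain ⟨e, he⟩ := hD
  have hmem : ∀ s ∈ M, hull q s ∈ C.members := fun s hs => by rw [hC]; exact ⟨s, hs, rfl⟩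
  -- images of the members
  let Q : (s : Finset ι) → Set (EuclideanSpace ℝ (Fin n)) := fun s =>
    if h : s ∈ M then (e ⟨hull q s, hmem s h⟩).1 else ∅
  have hQ : ∀ s (h : s ∈ M), Q s = (e ⟨hull q s, hmem s h⟩).1 := fun s h => dif_pos h
  have hQmem : ∀ s ∈ M, Q s ∈ D.members := fun s hs => by
    rw [hQ s hs]; exact (e ⟨hull q s, hmem s hs⟩).2
  have hQsub : ∀ s ∈ M, ∀ t ∈ M, (Q s ⊆ Q t ↔ s ⊆ t) := by
    intro s hs t ht
    rw [hQ s hs, hQ t ht, ← he, ← hsub s hs t ht]
  have hQsurj : ∀ F ∈ D.members, ∃ s ∈ M, F = Q s := by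
    intro F hF
    obtain ⟨⟨P, hP⟩, hPe⟩ := e.surjective ⟨F, hF⟩
    rw [hC] at hP
    obtain ⟨s, hs, hsP⟩ := hP
    refine ⟨s, hs, ?_⟩
    rw [hQ s hs]
    have : (⟨hull q s, hmem s hs⟩ : C.members) = ⟨P, by rw [hC]; exact ⟨s, hs, hsP⟩⟩ := Subtype.ext hsP
    rw [this, hPe]
  have hpoly : ∀ s ∈ M, ∃ t : Finset (EuclideanSpace ℝ (Fin n)), t.Nonempty ∧
      Q s = convexHull ℝ (t : Set _) := fun s hs => D.polytope _ (hQmem s hs)
  -- vertices
  have hvert : ∀ i : ι, ∃ x, Q {i} = {x} := by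
    intro i
    obtain ⟨t, htn, ht⟩ := hpoly {i} (hsing i)
    obtain ⟨z, hz⟩ := htn
    have hz' : z ∈ Q {i} := by rw [ht]; exact subset_convexHull ℝ _ hz
    have h1 := polytope_vertices (Q {i}) t ht z hz'
    obtain ⟨x, hx⟩ : {x | IsFace {x} (Q {i})}.Nonempty := by
      rw [Set.nonempty_iff_ne_empty]
      intro h
      rw [h, convexHull_empty] at h1
      exact h1
    have hx2 : {x} ∈ D.members := D.face_mem _ (hQmem _ (hsing i)) _ hx
    obtain ⟨s, hs, hsx⟩ := hQsurj _ hx2
    have h2 : Q s ⊆ Q {i} := by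
      rw [← hsx]
      exact hx.2.subset
    rw [hQsub s hs _ (hsing i)] at h2
    have h3 : s = {i} := by
      obtain ⟨j, hj⟩ := hne s hs
      apply Finset.Subset.antisymm h2
      rw [Finset.singleton_subset_iff, ← Finset.mem_singleton.mp (h2 hj)]
      exact hj
    refine ⟨x, ?_⟩
    rw [← h3, ← hsx]
  choose p hp using hvert
  -- members are hulls
  have hhull : ∀ s ∈ M, Q s = hull p s := by
    intro s hs
    obtain ⟨t, _, ht⟩ := hpoly s hs
    apply Set.Subset.antisymm
    · intro z hz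
      have h1 := polytope_vertices (Q s) t ht z hz
      have h2 : {x | IsFace {x} (Q s)} ⊆ p '' (s : Set ι) := by
        intro x hx
        have hx2 : {x} ∈ D.members := D.face_mem _ (hQmem _ hs) _ hx
        obtain ⟨r, hr, hrx⟩ := hQsurj _ hx2
        have h3 : Q r ⊆ Q s := by rw [← hrx]; exact hx.2.subset
        rw [hQsub r hr s hs] at h3
        obtain ⟨j, hj⟩ := hne r hr
        refine ⟨j, h3 hj, ?_⟩
        have h4 : Q {j} ⊆ Q r := by
          rw [hQsub _ (hsing j) r hr, Finset.singleton_subset_iff]; exact hj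
        rw [hp j, ← hrx] at h4
        exact h4 rfl
      exact convexHull_mono h2 h1
    · apply convexHull_min
      · rintro _ ⟨i, hi, rfl⟩
        have h4 : Q {i} ⊆ Q s := by
          rw [hQsub _ (hsing i) s hs, Finset.singleton_subset_iff]; exact hi
        rw [hp i] at h4
        exact h4 rfl
      · rw [ht]; exact convex_convexHull ℝ _
  refine ⟨p, ?_, ?_, ?_, ?_⟩
  · intro i j hij
    have h1 : Q {i} ⊆ Q {j} := by rw [hp i, hp j, hij]
    rw [hQsub _ (hsing i) _ (hsing j), Finset.singleton_subset_iff, Finset.mem_singleton] at h1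
    exact h1
  · intro s hs t ht hts
    rw [← hhull s hs, ← hhull t ht]
    have h1 : Q t ⊆ Q s := (hQsub t ht s hs).mpr hts
    have h2 : Q t ∩ Q s = Q t := Set.inter_eq_left.mpr h1
    have h3 : (Q t ∩ Q s).Nonempty := by
      rw [h2, hhull t ht]
      obtain ⟨i, hi⟩ := hne t ht
      exact ⟨p i, vertex_mem_hull p hi⟩
    have h4 := (D.inter _ (hQmem t ht) _ (hQmem s hs) h3).2
    rw [h2] at h4
    exact h4
  · intro s hs F hF
    rw [← hhull s hs] at hF
    obtain ⟨t, ht, hFt⟩ := hQsurj F (D.face_mem _ (hQmem s hs) F hF)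
    refine ⟨t, ht, ?_, ?_⟩
    · rw [← hQsub t ht s hs, ← hFt]
      exact hF.2.subset
    · rw [hFt, hhull t ht]
  · intro s hs t ht z hzs hzt
    rw [← hhull s hs] at hzs
    rw [← hhull t ht] at hzt
    have h1 := (D.inter _ (hQmem s hs) _ (hQmem t ht) ⟨z, hzs, hzt⟩).1
    obtain ⟨r, hr, hFr⟩ := hQsurj _ (D.face_mem _ (hQmem s hs) _ h1)
    refine ⟨r, hr, ?_, ?_, ?_⟩
    · rw [← hQsub r hr s hs, ← hFr]
      exact Set.inter_subset_left
    · rw [← hQsub r hr t ht, ← hFr]
      exact Set.inter_subset_right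
    · rw [← hhull r hr, ← hFr]
      exact ⟨hzs, hzt⟩

end part0
section part1

open Set

variable {ι E : Type} [DecidableEq ι] [NormedAddCommGroup E] [InnerProductSpace ℝ E]
  [FiniteDimensional ℝ E]

/-! ### Consequences of being a realisation -/

/-- a vertex in the hull of a member is a vertex of it -/
lemma Rlz.vertex_mem {M : Finset (Finset ι)} {p : ι → E} (h : Rlz M p)
    (hsing : ∀ i : ι, {i} ∈ M) {s : Finset ι} (hs : s ∈ M) {i : ι}
    (hi : p i ∈ hull p s) : i ∈ s := by
  obtain ⟨r, _, hr1, hr2, hr3⟩ := h.inter {i} (hsing i) s hs (p i)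
    (vertex_mem_hull p (Finset.mem_singleton_self i)) hi
  obtain ⟨j, hj⟩ := hull_nonempty hr3
  have : j = i := Finset.mem_singleton.mp (hr1 hj)
  rw [← this]
  exact hr2 hj


end part1

section part5

open Set

/-! ### Certified configurations -/

/-- a configuration of points together with an abstract complex which it realises -/
structure Cert {ι E : Type} [DecidableEq ι] [AddCommGroup E] [Module ℝ E]
    (M : Finset (Finset ι)) (p : ι → E) : Prop where
  ne : ∀ s ∈ M, s.Nonempty
  sing : ∀ i : ι, {i} ∈ M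
  cap : ∀ s ∈ M, ∀ t ∈ M, (s ∩ t).Nonempty → s ∩ t ∈ M
  expose : ∀ s ∈ M, ∀ t ∈ M, t ⊆ s → ∃ (f : E →ₗ[ℝ] ℝ) (c : ℝ), (∀ i ∈ t, f (p i) = c) ∧
    (∀ i ∈ s, i ∉ t → f (p i) < c)
  inter : ∀ s ∈ M, ∀ t ∈ M, ∀ z, z ∈ convexHull ℝ (p '' (s : Set ι)) →
    z ∈ convexHull ℝ (p '' (t : Set ι)) → z ∈ convexHull ℝ (p '' ((s ∩ t : Finset ι) : Set ι))
  arg : ∀ s ∈ M, ∀ (f : E →ₗ[ℝ] ℝ) (c : ℝ), (∀ i ∈ s, f (p i) ≤ c) → (∃ i ∈ s, f (p i) = c) →
    ∃ t ∈ M, t ⊆ s ∧ ∀ i ∈ s, (f (p i) = c ↔ i ∈ t)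
  inj : Function.Injective p

variable {ι E : Type} [DecidableEq ι] [NormedAddCommGroup E] [InnerProductSpace ℝ E]
  [FiniteDimensional ℝ E]

lemma Cert.vertex_mem {M : Finset (Finset ι)} {p : ι → E} (h : Cert M p) {s : Finset ι} (hs : s ∈ M)
    {i : ι} (hi : p i ∈ hull p s) : i ∈ s := by
  have h1 := h.inter {i} (h.sing i) s hs (p i) (vertex_mem_hull p (Finset.mem_singleton_self i)) hi
  obtain ⟨j, hj⟩ := hull_nonempty (p := p) h1
  rw [Finset.mem_inter, Finset.mem_singleton] at hj
  rw [← hj.1]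
  exact hj.2

lemma Cert.face {M : Finset (Finset ι)} {p : ι → E} (h : Cert M p) {s t : Finset ι} (hs : s ∈ M)
    (ht : t ∈ M) (hts : t ⊆ s) : IsFace (hull p t) (hull p s) := by
  obtain ⟨f, c, hf1, hf2⟩ := h.expose s hs t ht hts
  obtain ⟨j, hj⟩ := h.ne t ht
  refine ⟨⟨p j, vertex_mem_hull p hj⟩, fun _ => ⟨LinearMap.toContinuousLinearMap f, ?_⟩⟩
  have hle : ∀ i ∈ s, f (p i) ≤ c := by
    intro i hi
    by_cases hit : i ∈ t
    · rw [hf1 i hit]
    · exact (hf2 i hi hit).le
  ext x
  constructor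
  · intro hx
    refine ⟨hull_mono p hts hx, fun y hy => ?_⟩
    show f y ≤ f x
    have h1 : f y ≤ c := le_on_hull f c hle hy
    have h2 : (-f) x ≤ -c := le_on_hull (-f) (-c) (fun i hi => by
      rw [LinearMap.neg_apply, hf1 i hi]) hx
    rw [LinearMap.neg_apply] at h2
    linarith
  · rintro ⟨hx1, hx2⟩
    have h1 : f (p j) ≤ f x := hx2 (p j) (vertex_mem_hull p (hts hj))
    rw [hf1 j hj] at h1
    exact mem_hull_of_eq hts f c hf2 hf1 hx1 (le_antisymm (le_on_hull f c hle hx1) h1)

lemma Cert.face' {M : Finset (Finset ι)} {p : ι → E} (h : Cert M p) {s : Finset ι} (hs : s ∈ M)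
    (F : Set E) (hF : IsFace F (hull p s)) : ∃ t ∈ M, t ⊆ s ∧ F = hull p t := by
  obtain ⟨hne, hexp⟩ := hF
  obtain ⟨l, hl⟩ := hexp hne
  obtain ⟨i0, hi0, hmax⟩ := Finset.exists_max_image s (fun i => l (p i)) (h.ne s hs)
  obtain ⟨t, ht, hts, ht'⟩ := h.arg s hs l.toLinearMap (l (p i0)) hmax ⟨i0, hi0, rfl⟩
  refine ⟨t, ht, hts, ?_⟩
  have hle : ∀ y ∈ hull p s, l y ≤ l (p i0) := fun y hy =>
    le_on_hull l.toLinearMap (l (p i0)) hmax hy
  rw [hl]
  ext x
  constructor
  · rintro ⟨hx1, hx2⟩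
    refine mem_hull_of_eq hts l.toLinearMap (l (p i0)) ?_ ?_ hx1
      (le_antisymm (hle x hx1) (hx2 _ (vertex_mem_hull p hi0)))
    · intro i hi hit
      exact lt_of_le_of_ne (hmax i hi) (fun h1 => hit ((ht' i hi).mp h1))
    · intro i hi
      exact (ht' i (hts hi)).mpr hi
  · intro hx
    refine ⟨hull_mono p hts hx, fun y hy => ?_⟩
    have h2 : (-l.toLinearMap) x ≤ -(l (p i0)) := le_on_hull (-l.toLinearMap) _ (fun i hi => by
      rw [LinearMap.neg_apply]
      have := (ht' i (hts hi)).mpr hi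
      linarith) hx
    rw [LinearMap.neg_apply] at h2
    have h3 : l (p i0) ≤ l x := by
      have : (l.toLinearMap) x = l x := rfl
      linarith
    exact (hle y hy).trans h3

/-- a certified configuration is a realisation -/
lemma Cert.real {M : Finset (Finset ι)} {p : ι → E} (h : Cert M p) : Rlz M p := by
  refine ⟨h.inj, fun s hs t ht hts => h.face hs ht hts, fun s hs F hF => h.face' hs F hF, ?_⟩
  intro s hs t ht z hz1 hz2
  have h1 := h.inter s hs t ht z hz1 hz2
  exact ⟨s ∩ t, h.cap s hs t ht (hull_nonempty (p := p) h1), Finset.inter_subset_left,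
    Finset.inter_subset_right, h1⟩

lemma Cert.sub_iff {M : Finset (Finset ι)} {p : ι → E} (h : Cert M p) {s t : Finset ι} (hs : s ∈ M)
    (ht : t ∈ M) : hull p s ⊆ hull p t ↔ s ⊆ t :=
  ⟨fun h1 i hi => h.vertex_mem ht (h1 (vertex_mem_hull p hi)), fun h1 => hull_mono p h1⟩

/-- the complex of a certified configuration -/
noncomputable def Cert.cplx {n : ℕ} {M : Finset (Finset ι)} {p : ι → EuclideanSpace ℝ (Fin n)}
    (h : Cert M p) : Cplx n where
  members := (fun s => hull p s) '' (M : Set (Finset ι))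
  finite := M.finite_toSet.image _
  polytope := by
    classical
    rintro _ ⟨s, hs, rfl⟩
    refine ⟨s.image p, (h.ne s hs).image p, ?_⟩
    rw [Finset.coe_image]
    rfl
  face_mem := by
    rintro _ ⟨s, hs, rfl⟩ F hF
    obtain ⟨t, ht, _, rfl⟩ := h.face' hs F hF
    exact ⟨t, ht, rfl⟩
  inter := by
    rintro _ ⟨s, hs, rfl⟩ _ ⟨t, ht, rfl⟩ ⟨z, hz1, hz2⟩
    have h1 := h.inter s hs t ht z hz1 hz2
    have hM := h.cap s hs t ht (hull_nonempty (p := p) h1)
    have heq : hull p s ∩ hull p t = hull p (s ∩ t) := by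
      apply Set.Subset.antisymm
      · rintro x ⟨hx1, hx2⟩
        exact h.inter s hs t ht x hx1 hx2
      · exact Set.subset_inter (hull_mono p Finset.inter_subset_left)
          (hull_mono p Finset.inter_subset_right)
    show IsFace (hull p s ∩ hull p t) (hull p s) ∧ IsFace (hull p s ∩ hull p t) (hull p t)
    rw [heq]
    exact ⟨h.face hs hM Finset.inter_subset_left, h.face ht hM Finset.inter_subset_right⟩

end part5

/-- three-dimensional space -/
abbrev E3 := EuclideanSpace ℝ (Fin 3)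

section part9

open Set

/-! ### There is no injective continuous map from the sphere to the plane -/

/-- retraction of the plane to the unit disc -/
noncomputable def rd (z : ℂ) : ℂ := ((1 / max 1 ‖z‖ : ℝ) : ℂ) * z

lemma rd_norm (z : ℂ) : ‖rd z‖ ≤ 1 := by
  unfold rd
  have h1 : 0 < max 1 ‖z‖ := lt_of_lt_of_le one_pos (le_max_left _ _)
  rw [norm_mul, Complex.norm_real, Real.norm_eq_abs, abs_of_pos (by positivity), one_div,
    inv_mul_le_iff₀ h1, mul_one]
  exact le_max_right _ _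

lemma rd_cont : Continuous rd := by
  unfold rd
  have h1 : Continuous (fun z : ℂ => (1 / max 1 ‖z‖ : ℝ)) := by
    apply Continuous.div continuous_const (continuous_const.max continuous_norm)
    intro z
    exact (lt_of_lt_of_le one_pos (le_max_left _ _)).ne'
  exact (Complex.continuous_ofReal.comp h1).mul continuous_id

lemma rd_circle {z : ℂ} (hz : ‖z‖ = 1) : rd z = z := by
  unfold rd
  rw [hz, max_self]
  simp

/-- the upper hemisphere -/
noncomputable def hs (z : ℂ) : E3 := !₂[(rd z).re, (rd z).im, Real.sqrt (1 - ‖rd z‖ ^ 2)]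

lemma hs_norm (z : ℂ) : ‖hs z‖ = 1 := by
  rw [EuclideanSpace.norm_eq, Fin.sum_univ_three]
  show Real.sqrt (‖(rd z).re‖ ^ 2 + ‖(rd z).im‖ ^ 2 + ‖Real.sqrt (1 - ‖rd z‖ ^ 2)‖ ^ 2) = 1
  have h1 : ‖rd z‖ ^ 2 = (rd z).re ^ 2 + (rd z).im ^ 2 := by
    rw [← Complex.normSq_eq_norm_sq, Complex.normSq_apply]; ring
  have h2 : 0 ≤ 1 - ‖rd z‖ ^ 2 := by
    have := rd_norm z
    have := norm_nonneg (rd z)
    nlinarith
  rw [Real.norm_eq_abs, Real.norm_eq_abs, Real.norm_eq_abs, sq_abs, sq_abs, sq_abs,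
    Real.sq_sqrt h2, h1]
  rw [show (rd z).re ^ 2 + (rd z).im ^ 2 + (1 - ((rd z).re ^ 2 + (rd z).im ^ 2)) = 1 by ring,
    Real.sqrt_one]

lemma hs_cont : Continuous hs := by
  unfold hs
  apply (PiLp.continuous_toLp 2 _).comp
  apply continuous_pi
  intro i
  fin_cases i
  · exact Complex.continuous_re.comp rd_cont
  · exact Complex.continuous_im.comp rd_cont
  · exact Real.continuous_sqrt.comp (continuous_const.sub (rd_cont.norm.pow 2))

lemma hs_neg {z : ℂ} (hz : ‖z‖ = 1) : hs (-z) = - hs z := by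
  have hz' : ‖-z‖ = 1 := by rw [norm_neg]; exact hz
  unfold hs
  rw [rd_circle hz, rd_circle hz', hz, hz']
  ext i
  fin_cases i <;> simp

theorem no_sphere_embedding (f : E3 → ℂ) (hf : ContinuousOn f (Metric.sphere 0 1))
    (hinj : Set.InjOn f (Metric.sphere 0 1)) : False := by
  have hmem : ∀ z, hs z ∈ Metric.sphere (0 : E3) 1 := fun z => by
    rw [mem_sphere_zero_iff_norm]; exact hs_norm z
  have hmem' : ∀ z, -hs z ∈ Metric.sphere (0 : E3) 1 := fun z => by
    rw [mem_sphere_zero_iff_norm, norm_neg]; exact hs_norm z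
  let G : C(ℂ, ℂ) := ⟨fun z => f (hs z) - f (-hs z),
    (hf.comp_continuous hs_cont hmem).sub (hf.comp_continuous hs_cont.neg hmem')⟩
  have hG : ∀ z, G z ∈ ({0}ᶜ : Set ℂ) := by
    intro z h0
    have h1 : f (hs z) = f (-hs z) := sub_eq_zero.mp h0
    have h2 := hinj (hmem z) (hmem' z) h1
    have h3 : hs z = 0 := by
      have h4 : (2 : ℝ) • hs z = 0 := by
        rw [two_smul]
        nth_rewrite 2 [h2]
        abel
      rcases smul_eq_zero.mp h4 with h5 | h5
      · norm_num at h5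
      · exact h5
    have h4 := hs_norm z
    rw [h3, norm_zero] at h4
    exact zero_ne_one h4
  obtain ⟨F, ⟨_, hF⟩, _⟩ := Complex.isCoveringMapOn_exp.existsUnique_continuousMap_lifts G
    (a₀ := 0) (e₀ := Complex.log (G 0)) (Complex.exp_log (hG 0)) hG
  have hF' : ∀ z, Complex.exp (F z) = G z := fun z => congrFun hF z
  let e : ℝ → ℂ := fun t => Complex.exp (t * Complex.I)
  have he : ∀ t, ‖e t‖ = 1 := fun t => Complex.norm_exp_ofReal_mul_I t
  have hec : Continuous e := by
    apply Complex.continuous_exp.comp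
    exact Complex.continuous_ofReal.mul continuous_const
  let u : ℝ → ℂ := fun t => F (-(e t)) - F (e t)
  have hu : Continuous u := (F.continuous.comp hec.neg).sub (F.continuous.comp hec)
  have hint : ∀ t, ∃ n : ℤ, (u t).im = Real.pi + n * (2 * Real.pi) := by
    intro t
    have h1 : Complex.exp (u t) = Complex.exp (Real.pi * Complex.I) := by
      show Complex.exp (F (-(e t)) - F (e t)) = _
      rw [Complex.exp_sub, hF', hF', Complex.exp_pi_mul_I]
      show (f (hs (-(e t))) - f (-hs (-(e t)))) / (f (hs (e t)) - f (-hs (e t))) = -1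
      rw [hs_neg (he t), neg_neg]
      have h2 : f (hs (e t)) - f (-hs (e t)) ≠ 0 := hG (e t)
      field_simp
      ring
    obtain ⟨n, hn⟩ := Complex.exp_eq_exp_iff_exists_int.mp h1
    refine ⟨n, ?_⟩
    rw [hn]
    simp
  have hpi : ∀ t, u (t + Real.pi) = - u t := by
    intro t
    have h1 : e (t + Real.pi) = - e t := by
      show Complex.exp (((t + Real.pi : ℝ) : ℂ) * Complex.I) = - Complex.exp (t * Complex.I)
      rw [Complex.ofReal_add, add_mul, Complex.exp_add, Complex.exp_pi_mul_I]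
      ring
    show F (-(e (t + Real.pi))) - F (e (t + Real.pi)) = -(F (-(e t)) - F (e t))
    rw [h1, neg_neg]
    ring
  -- intermediate value
  have him : Continuous (fun t => (u t).im) := Complex.continuous_im.comp hu
  obtain ⟨t, ht⟩ : ∃ t, (u t).im = 0 := by
    have h1 : (u (0 + Real.pi)).im = -(u 0).im := by rw [hpi]; rfl
    rcases le_total (u 0).im 0 with h2 | h2
    · exact mem_range_of_exists_le_of_exists_ge him ⟨0, h2⟩ ⟨0 + Real.pi, by rw [h1]; linarith⟩
    · exact mem_range_of_exists_le_of_exists_ge him ⟨0 + Real.pi, by rw [h1]; linarith⟩ ⟨0, h2⟩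
  obtain ⟨n, hn⟩ := hint t
  rw [ht] at hn
  have h1 : Real.pi * (1 + 2 * n) = 0 := by linarith
  rcases mul_eq_zero.mp h1 with h2 | h2
  · exact Real.pi_ne_zero h2
  · have : (1 + 2 * n : ℤ) = 0 := by exact_mod_cast h2
    omega

end part9

lemma combEquiv_refl {n : ℕ} (C : Cplx n) : CombEquiv C C := ⟨Equiv.refl _, fun P Q => Iff.rfl⟩

/-- an injective continuous map from a space of dimension at most two to the plane -/
noncomputable def toC {m : ℕ} (v : EuclideanSpace ℝ (Fin m)) : ℂ :=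
  ⟨if h : 0 < m then v ⟨0, h⟩ else 0, if h : 1 < m then v ⟨1, h⟩ else 0⟩

lemma toC_inj {m : ℕ} (hm : m ≤ 2) : Function.Injective (toC (m := m)) := by
  intro v w hvw
  have h1 := congrArg Complex.re hvw
  have h2 := congrArg Complex.im hvw
  ext i
  obtain ⟨i, hi⟩ := i
  have hi2 : i = 0 ∨ i = 1 := by omega
  rcases hi2 with rfl | rfl
  · simp only [toC] at h1
    rw [dif_pos hi, dif_pos hi] at h1
    exact h1
  · simp only [toC] at h2
    rw [dif_pos hi, dif_pos hi] at h2
    exact h2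

lemma toC_cont {m : ℕ} : Continuous (toC (m := m)) := by
  have h1 : Continuous (fun v : EuclideanSpace ℝ (Fin m) => (if h : 0 < m then v ⟨0, h⟩ else 0 : ℝ)) := by
    split_ifs with h
    · exact (EuclideanSpace.proj (𝕜 := ℝ) (⟨0, h⟩ : Fin m)).continuous
    · exact continuous_const
  have h2 : Continuous (fun v : EuclideanSpace ℝ (Fin m) => (if h : 1 < m then v ⟨1, h⟩ else 0 : ℝ)) := by
    split_ifs with h
    · exact (EuclideanSpace.proj (𝕜 := ℝ) (⟨1, h⟩ : Fin m)).continuous
    · exact continuous_const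
  have h3 : (toC (m := m)) = fun v => Complex.equivRealProdCLM.symm
      ((if h : 0 < m then v ⟨0, h⟩ else 0 : ℝ), (if h : 1 < m then v ⟨1, h⟩ else 0 : ℝ)) := by
    funext v
    rfl
  rw [h3]
  exact Complex.equivRealProdCLM.symm.continuous.comp (h1.prodMk h2)

end Pool.Agent.H57.LinDim
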