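import Mathlib

set_option autoImplicit false
set_option linter.unusedSectionVars false
set_option linter.unusedVariables false

/-!
# The linear van Kampen–Flores theorem for seven points in dimension four

Every seven points of a space of dimension four have an affine dependence with at most three positive
and at most three negative coefficients.
-/

namespace Pool.Agent.H57.LinDim

open Finset

/-- A linear space of dimension at least two of vectors with seven entries has a nonzero vector
with at most three positive and at most three negative entries. -/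
theorem exists_balanced (L : Submodule ℝ (Fin 7 → ℝ)) (hL : 2 ≤ Module.finrank ℝ L) :
    ∃ v ∈ L, v ≠ 0 ∧ (univ.filter (fun i => 0 < v i)).card ≤ 3 ∧
      (univ.filter (fun i => v i < 0)).card ≤ 3 := by
  classical
  by_contra hcon
  push Not at hcon
  have hrank : 1 < Module.rank ℝ L := by
    rw [← Module.finrank_eq_rank]
    exact_mod_cast hL
  have hconn : IsConnected ({0}ᶜ : Set L) := isConnected_compl_singleton_of_one_lt_rank hrank 0
  let U : Set L := {v | 4 ≤ (univ.filter (fun i => 0 < (v : Fin 7 → ℝ) i)).card}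
  let V : Set L := {v | 4 ≤ (univ.filter (fun i => (v : Fin 7 → ℝ) i < 0)).card}
  have hU : IsOpen U := by
    have : U = ⋃ S ∈ ((univ : Finset (Fin 7)).powersetCard 4 : Finset (Finset (Fin 7))),
        ⋂ i ∈ S, {v : L | 0 < (v : Fin 7 → ℝ) i} := by
      ext v
      simp only [U, Set.mem_ofPred_eq, Set.mem_iUnion, Set.mem_iInter, exists_prop,
        mem_powersetCard, subset_univ, true_and]
      constructor
      · intro h
        obtain ⟨S, hS1, hS2⟩ := exists_subset_card_eq h
        exact ⟨S, hS2, fun i hi => (mem_filter.mp (hS1 hi)).2⟩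
      · rintro ⟨S, hS, h⟩
        rw [← hS]
        exact card_le_card (fun i hi => mem_filter.mpr ⟨mem_univ _, h i hi⟩)
    rw [this]
    refine isOpen_biUnion (fun S _ => isOpen_biInter_finset (fun i _ => ?_))
    exact isOpen_lt continuous_const ((continuous_apply i).comp continuous_subtype_val)
  have hV : IsOpen V := by
    have : V = ⋃ S ∈ ((univ : Finset (Fin 7)).powersetCard 4 : Finset (Finset (Fin 7))),
        ⋂ i ∈ S, {v : L | (v : Fin 7 → ℝ) i < 0} := by
      ext v
      simp only [V, Set.mem_ofPred_eq, Set.mem_iUnion, Set.mem_iInter, exists_prop,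
        mem_powersetCard, subset_univ, true_and]
      constructor
      · intro h
        obtain ⟨S, hS1, hS2⟩ := exists_subset_card_eq h
        exact ⟨S, hS2, fun i hi => (mem_filter.mp (hS1 hi)).2⟩
      · rintro ⟨S, hS, h⟩
        rw [← hS]
        exact card_le_card (fun i hi => mem_filter.mpr ⟨mem_univ _, h i hi⟩)
    rw [this]
    refine isOpen_biUnion (fun S _ => isOpen_biInter_finset (fun i _ => ?_))
    exact isOpen_lt ((continuous_apply i).comp continuous_subtype_val) continuous_const
  have hcov : ({0}ᶜ : Set L) ⊆ U ∪ V := by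
    intro v hv
    have hv0 : (v : Fin 7 → ℝ) ≠ 0 := fun h => hv (Subtype.ext h)
    by_cases h : (univ.filter (fun i => 0 < (v : Fin 7 → ℝ) i)).card ≤ 3
    · right
      have := hcon v v.2 hv0 h
      show 4 ≤ _
      omega
    · left
      show 4 ≤ _
      omega
  have hsymm : ∀ v : L, v ∈ U → -v ∈ V := by
    intro v hv
    show 4 ≤ _
    have h1 : (univ.filter (fun i => ((-v : L) : Fin 7 → ℝ) i < 0)) =
        (univ.filter (fun i => 0 < (v : Fin 7 → ℝ) i)) := by
      ext i
      simp
    rw [h1]
    exact hv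
  have hsymm' : ∀ v : L, v ∈ V → -v ∈ U := by
    intro v hv
    show 4 ≤ _
    have h1 : (univ.filter (fun i => 0 < ((-v : L) : Fin 7 → ℝ) i)) =
        (univ.filter (fun i => (v : Fin 7 → ℝ) i < 0)) := by
      ext i
      simp
    rw [h1]
    exact hv
  obtain ⟨v, hv⟩ := hconn.nonempty
  have hv' : -v ∈ ({0}ᶜ : Set L) := by
    intro h
    apply hv
    have : -v = 0 := h
    exact neg_eq_zero.mp this
  have hUV : (({0}ᶜ : Set L) ∩ U).Nonempty ∧ (({0}ᶜ : Set L) ∩ V).Nonempty := by
    rcases hcov hv with h | h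
    · exact ⟨⟨v, hv, h⟩, ⟨-v, hv', hsymm v h⟩⟩
    · exact ⟨⟨-v, hv', hsymm' v h⟩, ⟨v, hv, h⟩⟩
  obtain ⟨w, -, hwU, hwV⟩ := hconn.isPreconnected U V hU hV hcov hUV.1 hUV.2
  have hdisj : Disjoint (univ.filter (fun i => 0 < (w : Fin 7 → ℝ) i))
      (univ.filter (fun i => (w : Fin 7 → ℝ) i < 0)) := by
    rw [disjoint_filter]
    intro i _ h1 h2
    linarith
  have hc := card_le_univ (univ.filter (fun i => 0 < (w : Fin 7 → ℝ) i) ∪
      univ.filter (fun i => (w : Fin 7 → ℝ) i < 0))
  rw [card_union_of_disjoint hdisj, Fintype.card_fin] at hc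
  have h1 : 4 ≤ (univ.filter (fun i => 0 < (w : Fin 7 → ℝ) i)).card := hwU
  have h2 : 4 ≤ (univ.filter (fun i => (w : Fin 7 → ℝ) i < 0)).card := hwV
  omega

/-- **The linear van Kampen–Flores theorem.** Seven points in `ℝ⁴`. -/
theorem vkf (q : Fin 7 → (Fin 4 → ℝ)) : ∃ v : Fin 7 → ℝ, v ≠ 0 ∧ ∑ i, v i = 0 ∧
    ∑ i, v i • q i = 0 ∧ (univ.filter (fun i => 0 < v i)).card ≤ 3 ∧
      (univ.filter (fun i => v i < 0)).card ≤ 3 := by
  let φ : (Fin 7 → ℝ) →ₗ[ℝ] (ℝ × (Fin 4 → ℝ)) :=
    { toFun := fun v => (∑ i, v i, ∑ i, v i • q i)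
      map_add' := by
        intro v w
        simp [Finset.sum_add_distrib, add_smul]
      map_smul' := by
        intro a v
        simp [Finset.mul_sum, Finset.smul_sum, mul_smul] }
  have h1 := LinearMap.finrank_range_add_finrank_ker φ
  have h2 : Module.finrank ℝ (LinearMap.range φ) ≤ 5 := by
    refine (Submodule.finrank_le _).trans ?_
    simp
  have h3 : Module.finrank ℝ (Fin 7 → ℝ) = 7 := by simp
  obtain ⟨v, hv, hv0, hp, hn⟩ := exists_balanced (LinearMap.ker φ) (by omega)
  have hv' : φ v = 0 := hv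
  have e1 : ∑ i, v i = 0 := congrArg Prod.fst hv'
  have e2 : ∑ i, v i • q i = 0 := congrArg Prod.snd hv'
  exact ⟨v, hv0, e1, e2, hp, hn⟩

end Pool.Agent.H57.LinDim
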