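import Mathlib
import Pool.Agent.H57.LinDim.VKF

set_option autoImplicit false
set_option linter.unusedSectionVars false
set_option linter.unusedVariables false

/-!
# Crossing triangles in dimension four and orientations
-/

namespace Pool.Agent.H57.LinDim

open Finset

/-- the point with a first coordinate one added -/
def vec {N : ℕ} (p : Fin N → Fin 4 → ℝ) (i : Fin N) : Fin 5 → ℝ := Fin.cons 1 (p i)

/-- the orientation determinant of five points -/
noncomputable def D {N : ℕ} (p : Fin N → Fin 4 → ℝ) (c : Fin 5 → Fin N) : ℝ :=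
  (Matrix.detRowAlternating : (Fin 5 → ℝ) [⋀^Fin 5]→ₗ[ℝ] ℝ) (fun k => vec p (c k))

/-- general position -/
def Gen {N : ℕ} (p : Fin N → Fin 4 → ℝ) : Prop :=
  ∀ c : Fin 5 → Fin N, Function.Injective c → D p c ≠ 0

/-- the weights -/
def KK : Set (Fin 6 → ℝ) := {μ | (0 ≤ μ 0 ∧ 0 ≤ μ 1 ∧ 0 ≤ μ 2) ∧ (μ 3 ≤ 0 ∧ μ 4 ≤ 0 ∧ μ 5 ≤ 0) ∧
  μ 0 + μ 1 + μ 2 = 1 ∧ μ 3 + μ 4 + μ 5 = -1}

/-- the triangles `w 0, w 1, w 2` and `w 3, w 4, w 5` intersect -/
def Cross {N : ℕ} (p : Fin N → Fin 4 → ℝ) (w : Fin 6 → Fin N) : Prop :=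
  ∃ μ ∈ KK, ∑ k, μ k • p (w k) = 0

lemma D_eq {N : ℕ} (p : Fin N → Fin 4 → ℝ) (c : Fin 5 → Fin N) :
    D p c = (Matrix.detRowAlternating : (Fin 5 → ℝ) [⋀^Fin 5]→ₗ[ℝ] ℝ) (fun k => vec p (c k)) := by
  unfold D
  rfl

/-- the other four indices -/
def oth {N : ℕ} (w : Fin 6 → Fin N) (j : Fin 5) (k : Fin 4) : Fin N := w (j.succAbove k).succ

lemma key {N : ℕ} (p : Fin N → Fin 4 → ℝ) (w : Fin 6 → Fin N) (μ : Fin 6 → ℝ)
    (hμ : ∑ k, μ k • vec p (w k) = 0) (j : Fin 5) :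
    μ 0 * D p (Fin.cons (w 0) (oth w j)) + μ j.succ * D p (Fin.cons (w j.succ) (oth w j)) = 0 := by
  classical
  let f : (Fin 5 → ℝ) [⋀^Fin 5]→ₗ[ℝ] ℝ := Matrix.detRowAlternating
  let m : Fin 5 → (Fin 5 → ℝ) := Fin.cons 0 (fun k : Fin 4 => vec p (oth w j k))
  let φ : (Fin 5 → ℝ) →ₗ[ℝ] ℝ := f.toMultilinearMap.toLinearMap m 0
  have hφ : ∀ x, φ x = f (Function.update m 0 x) := fun x => rfl
  have hupd : ∀ x, Function.update m 0 x = Fin.cons x (fun k : Fin 4 => vec p (oth w j k)) := by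
    intro x
    exact Fin.update_cons_zero _ _ _
  have hval : ∀ i, φ (vec p (w i)) = D p (Fin.cons (w i) (oth w j)) := by
    intro i
    rw [hφ, hupd, D_eq]
    congr 1
    funext k
    refine Fin.cases ?_ (fun k => ?_) k
    · simp
    · simp
  have hzero : ∀ k : Fin 4, φ (vec p (w (j.succAbove k).succ)) = 0 := by
    intro k
    rw [hφ, hupd]
    apply f.map_eq_zero_of_eq _ (i := 0) (j := k.succ)
    · simp [oth]
    · exact (Fin.succ_ne_zero k).symm
  have h0 : φ (∑ k, μ k • vec p (w k)) = 0 := by rw [hμ, map_zero]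
  rw [map_sum, Fin.sum_univ_succ, Fin.sum_univ_succAbove _ j] at h0
  simp only [map_smul, smul_eq_mul, hzero, mul_zero, Finset.sum_const_zero, add_zero] at h0
  rw [hval, hval] at h0
  exact h0

lemma inj_cons {N : ℕ} {w : Fin 6 → Fin N} (hw : Function.Injective w) (j : Fin 5) (i : Fin 6)
    (hi : i = 0 ∨ i = j.succ) : Function.Injective (Fin.cons (w i) (oth w j) : Fin 5 → Fin N) := by
  rw [Fin.cons_injective_iff]
  constructor
  · rintro ⟨k, hk⟩
    have h1 := hw hk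
    rcases hi with rfl | rfl
    · exact Fin.succ_ne_zero _ h1
    · exact Fin.succAbove_ne j k (Fin.succ_injective _ h1)
  · intro k l hkl
    exact Fin.succAbove_right_injective (Fin.succ_injective _ (hw hkl))

/-- dependences of six points -/
lemma exists_dep {N : ℕ} (p : Fin N → Fin 4 → ℝ) (w : Fin 6 → Fin N) :
    ∃ μ : Fin 6 → ℝ, μ ≠ 0 ∧ ∑ k, μ k • vec p (w k) = 0 := by
  let φ : (Fin 6 → ℝ) →ₗ[ℝ] (Fin 5 → ℝ) :=
    { toFun := fun μ => ∑ k, μ k • vec p (w k)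
      map_add' := by
        intro v w
        simp [Finset.sum_add_distrib, add_smul]
      map_smul' := by
        intro a v
        simp [Finset.smul_sum, mul_smul] }
  have h1 := LinearMap.finrank_range_add_finrank_ker φ
  have h2 : Module.finrank ℝ (LinearMap.range φ) ≤ 5 := by
    refine (Submodule.finrank_le _).trans ?_
    simp
  have h3 : Module.finrank ℝ (Fin 6 → ℝ) = 6 := by simp
  have h4 : 0 < Module.finrank ℝ (LinearMap.ker φ) := by omega
  have h5 : Nontrivial (LinearMap.ker φ) := Module.finrank_pos_iff.mp h4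
  obtain ⟨⟨v, hv⟩, hv0⟩ := exists_ne (0 : LinearMap.ker φ)
  refine ⟨v, fun h => hv0 (Subtype.ext h), hv⟩

lemma dep_iff {N : ℕ} (p : Fin N → Fin 4 → ℝ) (w : Fin 6 → Fin N) (μ : Fin 6 → ℝ) :
    ∑ k, μ k • vec p (w k) = 0 ↔ ∑ k, μ k = 0 ∧ ∑ k, μ k • p (w k) = 0 := by
  constructor
  · intro h
    constructor
    · have := congrFun h 0
      simpa [Finset.sum_apply, vec] using this
    · funext a
      have := congrFun h a.succ
      simpa [Finset.sum_apply, vec] using this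
  · rintro ⟨h1, h2⟩
    funext a
    refine Fin.cases ?_ (fun a => ?_) a
    · simpa [Finset.sum_apply, vec] using h1
    · have := congrFun h2 a
      simpa [Finset.sum_apply, vec] using this

/-- normalisation -/
lemma cross_of_dep {N : ℕ} {p : Fin N → Fin 4 → ℝ} {w : Fin 6 → Fin N} {μ : Fin 6 → ℝ}
    (h0 : μ ≠ 0) (h1 : ∑ k, μ k = 0) (h2 : ∑ k, μ k • p (w k) = 0)
    (hp : 0 ≤ μ 0 ∧ 0 ≤ μ 1 ∧ 0 ≤ μ 2) (hn : μ 3 ≤ 0 ∧ μ 4 ≤ 0 ∧ μ 5 ≤ 0) : Cross p w := by
  obtain ⟨p0, p1, p2⟩ := hp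
  obtain ⟨n3, n4, n5⟩ := hn
  have hsum : μ 0 + μ 1 + μ 2 + μ 3 + μ 4 + μ 5 = 0 := by
    rw [← h1, Fin.sum_univ_six]
  have hpos : 0 < μ 0 + μ 1 + μ 2 := by
    rcases lt_or_eq_of_le (by linarith : 0 ≤ μ 0 + μ 1 + μ 2) with h | h
    · exact h
    · exfalso
      apply h0
      funext k
      have a0 : μ 0 = 0 := by linarith
      have a1 : μ 1 = 0 := by linarith
      have a2 : μ 2 = 0 := by linarith
      have a3 : μ 3 = 0 := by linarith
      have a4 : μ 4 = 0 := by linarith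
      have a5 : μ 5 = 0 := by linarith
      fin_cases k <;> simpa
  set s := μ 0 + μ 1 + μ 2 with hs
  have hs' : 0 ≤ s⁻¹ := (inv_pos.mpr hpos).le
  refine ⟨s⁻¹ • μ, ⟨⟨?_, ?_, ?_⟩, ⟨?_, ?_, ?_⟩, ?_, ?_⟩, ?_⟩
  · exact mul_nonneg hs' p0
  · exact mul_nonneg hs' p1
  · exact mul_nonneg hs' p2
  · exact mul_nonpos_of_nonneg_of_nonpos hs' n3
  · exact mul_nonpos_of_nonneg_of_nonpos hs' n4
  · exact mul_nonpos_of_nonneg_of_nonpos hs' n5
  · show s⁻¹ * μ 0 + s⁻¹ * μ 1 + s⁻¹ * μ 2 = 1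
    rw [← mul_add, ← mul_add, ← hs]
    exact inv_mul_cancel₀ hpos.ne'
  · show s⁻¹ * μ 3 + s⁻¹ * μ 4 + s⁻¹ * μ 5 = -1
    rw [← mul_add, ← mul_add, show μ 3 + μ 4 + μ 5 = -s by linarith, mul_neg,
      inv_mul_cancel₀ hpos.ne']
  · have : ∑ k, (s⁻¹ • μ) k • p (w k) = s⁻¹ • ∑ k, μ k • p (w k) := by
      rw [Finset.smul_sum]
      refine Finset.sum_congr rfl (fun k _ => ?_)
      rw [Pi.smul_apply, smul_assoc]
    rw [this, h2, smul_zero]

lemma sign_mul_eq {a b a' b' A B A' B' : ℝ} (hA : A ≠ 0) (hB : B ≠ 0) (hA' : A' ≠ 0) (hB' : B' ≠ 0)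
    (h : a * A + b * B = 0) (h' : a' * A' + b' * B' = 0)
    (hsA : SignType.sign A = SignType.sign A') (hsB : SignType.sign B = SignType.sign B')
    (hsa : SignType.sign a = SignType.sign a') : SignType.sign b = SignType.sign b' := by
  have e1 : b = -(a * A) / B := by field_simp; linarith
  have e2 : b' = -(a' * A') / B' := by field_simp; linarith
  rw [e1, e2, div_eq_mul_inv, div_eq_mul_inv, sign_mul, sign_mul, Left.sign_neg, Left.sign_neg,
    sign_mul, sign_mul, hsA, hsa]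
  congr 1
  have h3 : ∀ x : ℝ, SignType.sign x⁻¹ = SignType.sign x := by
    intro x
    rcases lt_trichotomy x 0 with h | h | h
    · rw [sign_neg h, sign_neg (inv_lt_zero.mpr h)]
    · rw [h, inv_zero]
    · rw [sign_pos h, sign_pos (inv_pos.mpr h)]
  rw [h3, h3, hsB]

/-- in general position, the orientations determine the crossings -/
theorem determ {N : ℕ} {p p' : Fin N → Fin 4 → ℝ} (hp : Gen p) (hp' : Gen p')
    (hs : ∀ c, SignType.sign (D p c) = SignType.sign (D p' c)) {w : Fin 6 → Fin N}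
    (hw : Function.Injective w) (h : Cross p w) : Cross p' w := by
  obtain ⟨μ, ⟨⟨p0, p1, p2⟩, ⟨n3, n4, n5⟩, s1, s2⟩, hμ⟩ := h
  have hdep : ∑ k, μ k • vec p (w k) = 0 := by
    rw [dep_iff]
    refine ⟨?_, hμ⟩
    rw [Fin.sum_univ_six]
    linarith
  obtain ⟨ν, hν0, hν⟩ := exists_dep p' w
  -- nonvanishing of the zeroth coefficient
  have hA : ∀ j, D p (Fin.cons (w 0) (oth w j)) ≠ 0 := fun j => hp _ (inj_cons hw j 0 (Or.inl rfl))
  have hB : ∀ j : Fin 5, D p (Fin.cons (w j.succ) (oth w j)) ≠ 0 :=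
    fun j => hp _ (inj_cons hw j _ (Or.inr rfl))
  have hA' : ∀ j, D p' (Fin.cons (w 0) (oth w j)) ≠ 0 :=
    fun j => hp' _ (inj_cons hw j 0 (Or.inl rfl))
  have hB' : ∀ j : Fin 5, D p' (Fin.cons (w j.succ) (oth w j)) ≠ 0 :=
    fun j => hp' _ (inj_cons hw j _ (Or.inr rfl))
  have hμ0 : μ 0 ≠ 0 := by
    intro h0
    have h1 : ∀ j : Fin 5, μ j.succ = 0 := by
      intro j
      have := key p w μ hdep j
      rw [h0, zero_mul, zero_add] at this
      exact (mul_eq_zero.mp this).resolve_right (hB j)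
    have a1 : μ 1 = 0 := h1 0
    have a2 : μ 2 = 0 := h1 1
    linarith
  have hν00 : ν 0 ≠ 0 := by
    intro h0
    apply hν0
    funext k
    refine Fin.cases h0 (fun j => ?_) k
    have := key p' w ν hν j
    rw [h0, zero_mul, zero_add] at this
    exact (mul_eq_zero.mp this).resolve_right (hB' j)
  have hμ0' : 0 < μ 0 := lt_of_le_of_ne p0 (Ne.symm hμ0)
  -- choose the sign
  obtain ⟨ρ, hρ0, hρ⟩ : ∃ ρ : Fin 6 → ℝ, 0 < ρ 0 ∧ ∑ k, ρ k • vec p' (w k) = 0 := by
    rcases lt_or_gt_of_ne hν00 with h | h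
    · refine ⟨-ν, ?_, ?_⟩
      · show 0 < -ν 0
        linarith
      · simp only [Pi.neg_apply, neg_smul, Finset.sum_neg_distrib, hν, neg_zero]
    · exact ⟨ν, h, hν⟩
  have hsign : ∀ j : Fin 5, SignType.sign (μ j.succ) = SignType.sign (ρ j.succ) := by
    intro j
    refine sign_mul_eq (hA j) (hB j) (hA' j) (hB' j) (key p w μ hdep j) (key p' w ρ hρ j)
      (hs _) (hs _) ?_
    rw [sign_pos hμ0', sign_pos hρ0]
  have hnn : ∀ j : Fin 5, 0 ≤ μ j.succ → 0 ≤ ρ j.succ := by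
    intro j hj
    rw [← sign_nonneg_iff, ← hsign j, sign_nonneg_iff]
    exact hj
  have hnp : ∀ j : Fin 5, μ j.succ ≤ 0 → ρ j.succ ≤ 0 := by
    intro j hj
    rw [← sign_nonpos_iff, ← hsign j, sign_nonpos_iff]
    exact hj
  obtain ⟨e1, e2⟩ := (dep_iff p' w ρ).mp hρ
  refine cross_of_dep ?_ e1 e2 ⟨hρ0.le, hnn 0 p1, hnn 1 p2⟩ ⟨hnp 2 n3, hnp 3 n4, hnp 4 n5⟩
  intro h0
  rw [h0] at hρ0
  exact lt_irrefl _ hρ0

/-- seven points contain a crossing -/
theorem exists_cross {N : ℕ} (p : Fin N → Fin 4 → ℝ) (z : Fin 7 → Fin N) :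
    ∃ g : Fin 6 → Fin 7, Function.Injective g ∧ Cross p (z ∘ g) := by
  classical
  obtain ⟨v, hv0, h1, h2, hp, hn⟩ := vkf (fun i => p (z i))
  set P := univ.filter (fun i => 0 < v i) with hP
  set Q := univ.filter (fun i => v i < 0) with hQ
  have hPQ : Disjoint P Q := by
    rw [hP, hQ, disjoint_filter]
    intro i _ h1 h2
    linarith
  have h7 : (univ : Finset (Fin 7)).card = 7 := by simp
  obtain ⟨A, hA1, hA2, hA3⟩ := exists_subsuperset_card_eq (s := P) (t := univ \ Q) (n := 3)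
    (fun i hi => mem_sdiff.mpr ⟨mem_univ _, Finset.disjoint_left.mp hPQ hi⟩) hp (by
      rw [card_sdiff_of_subset (subset_univ _), h7]; omega)
  obtain ⟨B, hB1, hB2, hB3⟩ := exists_subsuperset_card_eq (s := Q) (t := univ \ A) (n := 3)
    (fun i hi => mem_sdiff.mpr ⟨mem_univ _, fun h => (mem_sdiff.mp (hA2 h)).2 hi⟩) hn (by
      rw [card_sdiff_of_subset (subset_univ _), h7]; omega)
  have hAB : Disjoint A B := by
    rw [Finset.disjoint_right]
    intro i hi
    exact (mem_sdiff.mp (hB2 hi)).2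
  let a := A.orderEmbOfFin hA3
  let b := B.orderEmbOfFin hB3
  let g : Fin (3 + 3) → Fin 7 := Fin.append a b
  have ha : ∀ k, a k ∈ A := fun k => A.orderEmbOfFin_mem hA3 k
  have hb : ∀ k, b k ∈ B := fun k => B.orderEmbOfFin_mem hB3 k
  have hg : Function.Injective g := by
    rw [Fin.append_injective_iff]
    refine ⟨a.injective, b.injective, ?_⟩
    intro i j h
    exact Finset.disjoint_left.mp hAB (ha i) (h ▸ hb j)
  refine ⟨g, hg, ?_⟩
  have hsumA : ∀ {X : Type} [AddCommMonoid X] (f : Fin 7 → X), ∑ k, f (a k) = ∑ i ∈ A, f i := by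
    intro X _ f
    have : (univ : Finset (Fin 3)).map a.toEmbedding = A := Finset.map_orderEmbOfFin_univ A hA3
    rw [← this, Finset.sum_map]
    rfl
  have hsumB : ∀ {X : Type} [AddCommMonoid X] (f : Fin 7 → X), ∑ k, f (b k) = ∑ i ∈ B, f i := by
    intro X _ f
    have : (univ : Finset (Fin 3)).map b.toEmbedding = B := Finset.map_orderEmbOfFin_univ B hB3
    rw [← this, Finset.sum_map]
    rfl
  have hsum : ∀ {X : Type} [AddCommMonoid X] (f : Fin 7 → X), (∀ i, v i = 0 → f i = 0) →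
      ∑ k : Fin (3 + 3), f (g k) = ∑ i, f i := by
    intro X _ f hf
    rw [Fin.sum_univ_add]
    have e1 : ∀ k : Fin 3, g (Fin.castAdd 3 k) = a k := fun k => Fin.append_left _ _ _
    have e2 : ∀ k : Fin 3, g (Fin.natAdd 3 k) = b k := fun k => Fin.append_right _ _ _
    simp only [e1, e2]
    rw [hsumA, hsumB, ← Finset.sum_union hAB]
    apply Finset.sum_subset (subset_univ _)
    intro i _ hi
    apply hf
    rw [mem_union, not_or] at hi
    by_contra hne
    rcases lt_or_gt_of_ne hne with h | h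
    · exact hi.2 (hB1 (mem_filter.mpr ⟨mem_univ _, h⟩))
    · exact hi.1 (hA1 (mem_filter.mpr ⟨mem_univ _, h⟩))
  have hAn : ∀ k, 0 ≤ v (a k) := by
    intro k
    by_contra h
    exact (mem_sdiff.mp (hA2 (ha k))).2 (mem_filter.mpr ⟨mem_univ _, not_le.mp h⟩)
  have hBn : ∀ k, v (b k) ≤ 0 := by
    intro k
    by_contra h
    exact (mem_sdiff.mp (hB2 (hb k))).2 (hA1 (mem_filter.mpr ⟨mem_univ _, not_le.mp h⟩))
  refine cross_of_dep (μ := fun k => v (g k)) ?_ ?_ ?_ ⟨hAn 0, hAn 1, hAn 2⟩ ⟨hBn 0, hBn 1, hBn 2⟩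
  · intro h0
    apply hv0
    funext i
    by_contra hne
    rcases lt_or_gt_of_ne hne with h | h
    · have hi : i ∈ B := hB1 (mem_filter.mpr ⟨mem_univ _, h⟩)
      obtain ⟨k, hk⟩ : ∃ k, b k = i := by
        have := Finset.range_orderEmbOfFin B hB3
        have h3 : i ∈ Set.range (B.orderEmbOfFin hB3) := by rw [this]; exact hi
        exact h3
      have h4 : v (g (Fin.natAdd 3 k)) = 0 := congrFun h0 (Fin.natAdd 3 k)
      rw [show g (Fin.natAdd 3 k) = b k from Fin.append_right _ _ _, hk] at h4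
      exact hne h4
    · have hi : i ∈ A := hA1 (mem_filter.mpr ⟨mem_univ _, h⟩)
      obtain ⟨k, hk⟩ : ∃ k, a k = i := by
        have := Finset.range_orderEmbOfFin A hA3
        have h3 : i ∈ Set.range (A.orderEmbOfFin hA3) := by rw [this]; exact hi
        exact h3
      have h4 : v (g (Fin.castAdd 3 k)) = 0 := congrFun h0 (Fin.castAdd 3 k)
      rw [show g (Fin.castAdd 3 k) = a k from Fin.append_left _ _ _, hk] at h4
      exact hne h4
  · rw [← h1]
    exact hsum (fun i => v i) (fun i h => h)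
  · rw [← h2]
    exact hsum (fun i => v i • p (z i)) (fun i h => by rw [h, zero_smul])

end Pool.Agent.H57.LinDim
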