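import Mathlib
import Pool.Agent.H57.LinDim.Order

set_option autoImplicit false
set_option linter.unusedSectionVars false
set_option linter.unusedVariables false

/-!
# Reduction to general position
-/

namespace Pool.Agent.H57.LinDim

open Finset

/-- points on the moment curve -/
noncomputable def mom (N : ℕ) : Fin N → Fin 4 → ℝ := fun i a => ((i : ℕ) : ℝ) ^ ((a : ℕ) + 1)

lemma vec_mom {N : ℕ} (i : Fin N) (a : Fin 5) : vec (mom N) i a = ((i : ℕ) : ℝ) ^ (a : ℕ) := by
  refine Fin.cases ?_ (fun a => ?_) a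
  · simp [vec]
  · simp [vec, mom]

lemma gen_mom (N : ℕ) : Gen (mom N) := by
  intro c hc
  have h1 : D (mom N) c = (Matrix.vandermonde (fun k => (((c k : Fin N) : ℕ) : ℝ))).det := by
    rw [D_eq]
    show Matrix.det _ = _
    congr 1
    funext k a
    rw [vec_mom]
    rfl
  rw [h1, Matrix.det_vandermonde_ne_zero_iff]
  intro k l hkl
  apply hc
  apply Fin.ext
  have hkl' : (((c k : Fin N) : ℕ) : ℝ) = (((c l : Fin N) : ℕ) : ℝ) := hkl
  exact_mod_cast hkl'

/-- the determinant along a line of configurations, as a polynomial -/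
noncomputable def pol {N : ℕ} (p q : Fin N → Fin 4 → ℝ) (c : Fin 5 → Fin N) : Polynomial ℝ :=
  Matrix.det (Matrix.of (fun (k : Fin 5) (a : Fin 5) =>
    (Fin.cons 1 (fun b : Fin 4 => Polynomial.C (p (c k) b) +
      Polynomial.X * Polynomial.C (q (c k) b - p (c k) b)) : Fin 5 → Polynomial ℝ) a))

lemma eval_pol {N : ℕ} (p q : Fin N → Fin 4 → ℝ) (c : Fin 5 → Fin N) (s : ℝ) :
    (pol p q c).eval s = D (fun i b => p i b + s * (q i b - p i b)) c := by
  rw [D_eq]
  unfold pol
  rw [← Polynomial.coe_evalRingHom, RingHom.map_det]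
  show Matrix.det _ = Matrix.det _
  congr 1
  funext k a
  rw [RingHom.mapMatrix_apply, Matrix.map_apply, Matrix.of_apply]
  refine Fin.cases ?_ (fun a => ?_) a
  · simp [vec]
  · simp [vec]

lemma exists_gen {N : ℕ} (p : Fin N → Fin 4 → ℝ) (U : Set (Fin N → Fin 4 → ℝ)) (hU : IsOpen U)
    (hp : p ∈ U) : ∃ p' ∈ U, Gen p' := by
  classical
  set q := mom N with hq
  have hpol : ∀ c, Function.Injective c → pol p q c ≠ 0 := by
    intro c hc h0
    have h1 : (pol p q c).eval 1 = 0 := by rw [h0, Polynomial.eval_zero]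
    rw [eval_pol] at h1
    have h2 : (fun i b => p i b + 1 * (q i b - p i b)) = q := by
      funext i b
      ring
    rw [h2] at h1
    exact gen_mom N c hc h1
  set G := ∏ c ∈ (univ : Finset (Fin 5 → Fin N)).filter Function.Injective, pol p q c with hG
  have hG0 : G ≠ 0 := Finset.prod_ne_zero_iff.mpr (fun c hc => hpol c (mem_filter.mp hc).2)
  have hfin : {s : ℝ | G.IsRoot s}.Finite := Polynomial.finite_setOfPred_isRoot hG0
  have hdense : Dense ((Set.univ : Set ℝ) \ {s : ℝ | G.IsRoot s}) := dense_univ.sdiff_finite hfin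
  let r : ℝ → (Fin N → Fin 4 → ℝ) := fun s i b => p i b + s * (q i b - p i b)
  have hr : Continuous r := by
    apply continuous_pi
    intro i
    apply continuous_pi
    intro b
    exact continuous_const.add (continuous_id.mul continuous_const)
  have hr0 : r 0 = p := by
    funext i b
    show p i b + 0 * (q i b - p i b) = p i b
    ring
  obtain ⟨s, hs1, hs2⟩ := hdense.inter_open_nonempty (r ⁻¹' U) (hU.preimage hr)
    ⟨0, by show r 0 ∈ U; rw [hr0]; exact hp⟩
  refine ⟨r s, hs1, ?_⟩
  intro c hc h0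
  apply hs2.2
  show G.eval s = 0
  rw [hG, Polynomial.eval_prod]
  apply Finset.prod_eq_zero (mem_filter.mpr ⟨mem_univ c, hc⟩)
  rw [eval_pol]
  exact h0

lemma isCompact_KK : IsCompact KK := by
  apply IsCompact.of_isClosed_subset (isCompact_Icc (a := (fun _ => -1 : Fin 6 → ℝ))
    (b := (fun _ => 1 : Fin 6 → ℝ)))
  · unfold KK
    have hc : ∀ k : Fin 6, Continuous (fun μ : Fin 6 → ℝ => μ k) := fun k => continuous_apply k
    apply IsClosed.inter
    · exact (isClosed_le continuous_const (hc 0)).inter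
        ((isClosed_le continuous_const (hc 1)).inter (isClosed_le continuous_const (hc 2)))
    apply IsClosed.inter
    · exact (isClosed_le (hc 3) continuous_const).inter
        ((isClosed_le (hc 4) continuous_const).inter (isClosed_le (hc 5) continuous_const))
    apply IsClosed.inter
    · exact isClosed_eq (((hc 0).add (hc 1)).add (hc 2)) continuous_const
    · exact isClosed_eq (((hc 3).add (hc 4)).add (hc 5)) continuous_const
  · rintro μ ⟨⟨p0, p1, p2⟩, ⟨n3, n4, n5⟩, s1, s2⟩
    constructor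
    · intro k
      fin_cases k <;> simp <;> linarith
    · intro k
      fin_cases k <;> simp <;> linarith

lemma isClosed_cross {N : ℕ} (w : Fin 6 → Fin N) : IsClosed {p : Fin N → Fin 4 → ℝ | Cross p w} := by
  have : CompactSpace KK := isCompact_iff_compactSpace.mp isCompact_KK
  have h1 : IsClosed {x : (Fin N → Fin 4 → ℝ) × KK | ∑ k, (x.2 : Fin 6 → ℝ) k • x.1 (w k) = 0} := by
    apply isClosed_eq _ continuous_const
    apply continuous_finsetSum
    intro k _
    have e1 : Continuous (fun x : (Fin N → Fin 4 → ℝ) × KK => (x.2 : Fin 6 → ℝ) k) :=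
      (continuous_apply k).comp (continuous_subtype_val.comp continuous_snd)
    have e2 : Continuous (fun x : (Fin N → Fin 4 → ℝ) × KK => x.1 (w k)) :=
      (continuous_apply (w k)).comp continuous_fst
    exact e1.smul e2
  have h2 := isClosedMap_fst_of_compactSpace _ h1
  convert h2 using 1
  ext p
  constructor
  · rintro ⟨μ, hμ, h⟩
    exact ⟨(p, ⟨μ, hμ⟩), h, rfl⟩
  · rintro ⟨⟨p', ⟨μ, hμ⟩⟩, h, rfl⟩
    exact ⟨μ, hμ, h⟩

/-- it is enough to consider points in general position -/
theorem of_gen {N : ℕ} (L : Finset (Fin 6 → Fin N))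
    (h : ∀ p : Fin N → Fin 4 → ℝ, Gen p → ∃ w ∈ L, Cross p w) :
    ∀ p : Fin N → Fin 4 → ℝ, ∃ w ∈ L, Cross p w := by
  intro p
  by_contra hcon
  push Not at hcon
  have hopen : IsOpen (⋂ w ∈ L, {p : Fin N → Fin 4 → ℝ | Cross p w}ᶜ) :=
    isOpen_biInter_finset (fun w _ => (isClosed_cross w).isOpen_compl)
  obtain ⟨p', hp', hg⟩ := exists_gen p _ hopen (by
    simp only [Set.mem_iInter]
    intro w hw
    exact hcon w hw)
  obtain ⟨w, hw, hc⟩ := h p' hg
  simp only [Set.mem_iInter] at hp'
  exact hp' w hw hc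

end Pool.Agent.H57.LinDim
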