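import Mathlib

set_option autoImplicit false
set_option linter.unusedSectionVars false
set_option linter.unusedVariables false

/-!
# A greedy choice, and the counting of six-tuples
-/

namespace Pool.Agent.H57.LinDim

open Finset

/-- A greedy choice: if for every good set `L` with less than `M` elements and every test `τ` a
proportion of at least `c` of all elements may be added to `L` and passes the test, then there is a
good set passing all tests. -/
theorem greedy {Ω Θ : Type} [Fintype Ω] [Nonempty Ω] (S : Finset Θ) (E : Θ → Ω → Prop)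
    (good : Finset Ω → Prop) (ok : Finset Ω → Ω → Prop) (c : ℝ) (hc0 : 0 < c) (hc1 : c ≤ 1) (M : ℕ)
    (h0 : good ∅) (hins : ∀ L w, good L → ok L w → ∀ L' : Finset Ω,
      (∀ v, v ∈ L' ↔ v = w ∨ v ∈ L) → good L')
    (h : ∀ L, good L → L.card < M → ∀ τ ∈ S, ∀ A : Finset Ω, (∀ w, w ∈ A ↔ ok L w ∧ E τ w) →
      c * Fintype.card Ω ≤ A.card)
    (hM : S.card * (1 - c) ^ M < 1) : ∃ L, good L ∧ ∀ τ ∈ S, ∃ w ∈ L, E τ w := by
  classical
  have key : ∀ i, i ≤ M → ∃ L, good L ∧ L.card ≤ i ∧
      ((S.filter (fun τ => ∀ w ∈ L, ¬ E τ w)).card : ℝ) ≤ S.card * (1 - c) ^ i := by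
    intro i
    induction i with
    | zero =>
      intro _
      refine ⟨∅, h0, by simp, ?_⟩
      rw [pow_zero, mul_one]
      exact_mod_cast card_filter_le _ _
    | succ i ih =>
      intro hi
      obtain ⟨L, hL, hLc, hR⟩ := ih (by omega)
      set R := S.filter (fun τ => ∀ w ∈ L, ¬ E τ w) with hRdef
      have hc2 : 0 ≤ 1 - c := by linarith
      by_cases hRe : R.card = 0
      · refine ⟨L, hL, by omega, ?_⟩
        rw [hRe, Nat.cast_zero]
        exact mul_nonneg (Nat.cast_nonneg _) (pow_nonneg hc2 _)
      · have hRpos : 0 < (R.card : ℝ) := by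
          exact_mod_cast Nat.pos_of_ne_zero hRe
        set A := (univ : Finset Ω).filter (ok L) with hA
        -- averaging
        obtain ⟨w, hwA, hw⟩ : ∃ w ∈ A, c * R.card ≤ ((R.filter (fun τ => E τ w)).card : ℝ) := by
          by_contra hcon
          push Not at hcon
          have hdc : ∑ τ ∈ R, (A.filter (fun w => E τ w)).card =
              ∑ w ∈ A, (R.filter (fun τ => E τ w)).card :=
            sum_card_bipartiteAbove_eq_sum_card_bipartiteBelow (fun τ w => E τ w)
          have hlow : ∀ τ ∈ R, c * Fintype.card Ω ≤ ((A.filter (fun w => E τ w)).card : ℝ) := by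
            intro τ hτ
            exact h L hL (by omega) τ (mem_filter.mp hτ).1 _ (by
              intro w
              rw [mem_filter, hA, mem_filter]
              simp)
          have h1 : (R.card : ℝ) * (c * Fintype.card Ω) ≤
              ((∑ τ ∈ R, (A.filter (fun w => E τ w)).card : ℕ) : ℝ) := by
            push_cast
            rw [← nsmul_eq_mul]
            exact card_nsmul_le_sum _ _ _ hlow
          have hAne : A.Nonempty := by
            obtain ⟨τ, hτ⟩ := card_pos.mp (Nat.pos_of_ne_zero hRe)
            have h2 := hlow τ hτ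
            have h3 : 0 < c * Fintype.card Ω := by
              have : 0 < Fintype.card Ω := Fintype.card_pos
              positivity
            have h4 : 0 < (A.filter (fun w => E τ w)).card := by
              have : (0 : ℝ) < ((A.filter (fun w => E τ w)).card : ℝ) := lt_of_lt_of_le h3 h2
              exact_mod_cast this
            obtain ⟨w, hw⟩ := card_pos.mp h4
            exact ⟨w, (mem_filter.mp hw).1⟩
          have h2 : ((∑ w ∈ A, (R.filter (fun τ => E τ w)).card : ℕ) : ℝ) <
              A.card * (c * R.card) := by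
            push_cast
            rw [← nsmul_eq_mul, ← sum_const]
            exact sum_lt_sum_of_nonempty hAne hcon
          have h3 : (A.card : ℝ) ≤ Fintype.card Ω := by
            exact_mod_cast card_le_univ A
          rw [hdc] at h1
          have h4 : (A.card : ℝ) * (c * R.card) ≤ Fintype.card Ω * (c * R.card) :=
            mul_le_mul_of_nonneg_right h3 (by positivity)
          nlinarith
        refine ⟨insert w L, hins L w hL (mem_filter.mp hwA).2 _ (fun v => mem_insert), ?_, ?_⟩
        · exact (card_insert_le _ _).trans (by omega)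
        · have heq : S.filter (fun τ => ∀ v ∈ insert w L, ¬ E τ v) =
              R.filter (fun τ => ¬ E τ w) := by
            ext τ
            simp only [hRdef, mem_filter, mem_insert, forall_eq_or_imp]
            tauto
          rw [heq]
          have h5 := card_filter_add_card_filter_not (s := R) (fun τ => E τ w)
          have h6 : ((R.filter (fun τ => ¬ E τ w)).card : ℝ) =
              R.card - ((R.filter (fun τ => E τ w)).card : ℝ) := by
            rw [eq_sub_iff_add_eq, add_comm]
            exact_mod_cast h5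
          rw [h6, pow_succ]
          calc (R.card : ℝ) - ((R.filter (fun τ => E τ w)).card : ℝ) ≤ (1 - c) * R.card := by
                linarith
            _ ≤ (1 - c) * (S.card * (1 - c) ^ i) := mul_le_mul_of_nonneg_left hR hc2
            _ = S.card * ((1 - c) ^ i * (1 - c)) := by ring
  obtain ⟨L, hL, _, hR⟩ := key M le_rfl
  refine ⟨L, hL, ?_⟩
  intro τ hτ
  by_contra hcon
  push Not at hcon
  have h1 : 0 < (S.filter (fun τ => ∀ w ∈ L, ¬ E τ w)).card :=
    card_pos.mpr ⟨τ, mem_filter.mpr ⟨hτ, hcon⟩⟩
  have h2 : (1 : ℝ) ≤ ((S.filter (fun τ => ∀ w ∈ L, ¬ E τ w)).card : ℝ) := by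
    exact_mod_cast h1
  linarith

/-- two six-tuples share at most one element -/
def Apart {N : ℕ} (w w' : Fin 6 → Fin N) : Prop :=
  ∀ x y : Fin 6, x ≠ y → ¬ (w x ∈ Set.range w' ∧ w y ∈ Set.range w')

lemma apart_symm {N : ℕ} {w w' : Fin 6 → Fin N} (hw' : Function.Injective w') (h : Apart w w') :
    Apart w' w := by
  rintro x y hxy ⟨⟨a, ha⟩, ⟨b, hb⟩⟩
  refine h a b ?_ ⟨⟨x, ha.symm⟩, ⟨y, hb.symm⟩⟩
  rintro rfl
  exact hxy (hw' (ha.symm.trans hb))

/-- the number of tuples sharing two elements with a given one -/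
lemma card_bad_pair {N : ℕ} (w' : Fin 6 → Fin N) (x y : Fin 6) (hxy : x ≠ y)
    (A : Finset (Fin 6 → Fin N)) (hA : ∀ w ∈ A, w x ∈ Set.range w' ∧ w y ∈ Set.range w') :
    A.card ≤ 36 * N ^ 4 := by
  classical
  let t : Fin 6 → Finset (Fin N) := fun i => if i = x ∨ i = y then univ.image w' else univ
  have h1 : A ⊆ Fintype.piFinset t := by
    intro w hw
    rw [Fintype.mem_piFinset]
    intro i
    obtain ⟨⟨a, ha⟩, ⟨b, hb⟩⟩ := hA w hw
    by_cases hi : i = x ∨ i = y
    · simp only [t, if_pos hi, mem_image, mem_univ, true_and]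
      rcases hi with rfl | rfl
      · exact ⟨a, ha⟩
      · exact ⟨b, hb⟩
    · simp only [t, if_neg hi, mem_univ]
  refine (card_le_card h1).trans ?_
  rw [Fintype.card_piFinset]
  have h2 : ∀ i, (t i).card ≤ if i = x ∨ i = y then 6 else N := by
    intro i
    by_cases hi : i = x ∨ i = y
    · simp only [t, if_pos hi]
      refine card_image_le.trans ?_
      simp
    · simp only [t, if_neg hi]
      simp
  refine (prod_le_prod (fun _ _ => Nat.zero_le _) (fun i _ => h2 i)).trans ?_
  rw [prod_ite, prod_const, prod_const]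
  have h3 : (univ.filter (fun i : Fin 6 => i = x ∨ i = y)) = {x, y} := by
    ext i
    simp
  have h4 : (univ.filter (fun i : Fin 6 => i = x ∨ i = y)).card = 2 := by
    rw [h3, card_pair hxy]
  have h5 := card_filter_add_card_filter_not (s := (univ : Finset (Fin 6)))
    (fun i : Fin 6 => i = x ∨ i = y)
  rw [h4] at h5
  have h6 : (univ.filter (fun i : Fin 6 => ¬ (i = x ∨ i = y))).card = 4 := by
    simp only [card_univ, Fintype.card_fin] at h5
    omega
  rw [h4, h6]
  norm_num

lemma card_bad {N : ℕ} (L : Finset (Fin 6 → Fin N)) (A : Finset (Fin 6 → Fin N))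
    (hA : ∀ w ∈ A, ∃ w' ∈ L, ¬ Apart w w') : A.card ≤ L.card * (1296 * N ^ 4) := by
  classical
  have h1 : A ⊆ L.biUnion (fun w' => ((univ : Finset (Fin 6 × Fin 6)).filter
      (fun xy => xy.1 ≠ xy.2)).biUnion (fun xy =>
      univ.filter (fun w => w xy.1 ∈ Set.range w' ∧ w xy.2 ∈ Set.range w'))) := by
    intro w hw
    obtain ⟨w', hw', hap⟩ := hA w hw
    unfold Apart at hap
    push Not at hap
    obtain ⟨x, y, hxy, h⟩ := hap
    rw [mem_biUnion]
    refine ⟨w', hw', ?_⟩
    rw [mem_biUnion]
    exact ⟨(x, y), mem_filter.mpr ⟨mem_univ _, hxy⟩, mem_filter.mpr ⟨mem_univ _, h⟩⟩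
  refine (card_le_card h1).trans (card_biUnion_le.trans ?_)
  rw [← smul_eq_mul, ← sum_const]
  apply sum_le_sum
  intro w' _
  refine card_biUnion_le.trans ?_
  have h2 : ∀ xy ∈ ((univ : Finset (Fin 6 × Fin 6)).filter (fun xy => xy.1 ≠ xy.2)),
      (univ.filter (fun w : Fin 6 → Fin N => w xy.1 ∈ Set.range w' ∧
        w xy.2 ∈ Set.range w')).card ≤ 36 * N ^ 4 := by
    intro xy hxy
    exact card_bad_pair w' xy.1 xy.2 (mem_filter.mp hxy).2 _ (fun w hw => (mem_filter.mp hw).2)
  refine (sum_le_sum h2).trans ?_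
  rw [sum_const, smul_eq_mul]
  have h3 : ((univ : Finset (Fin 6 × Fin 6)).filter (fun xy => xy.1 ≠ xy.2)).card ≤ 36 := by
    refine (card_le_univ _).trans ?_
    simp
  calc _ ≤ 36 * (36 * N ^ 4) := Nat.mul_le_mul_right _ h3
    _ = 1296 * N ^ 4 := by ring

/-- the number of six-tuples in a family which meets every injective seven-tuple -/
lemma card_family {N : ℕ} (hN : 12 ≤ N) (A : Finset (Fin 6 → Fin N))
    (hA : ∀ z : Fin 7 → Fin N, Function.Injective z → ∃ g : Fin 6 → Fin 7, Function.Injective g ∧
      z ∘ g ∈ A) : (N : ℝ) ^ 6 ≤ 15059072 * A.card := by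
  classical
  choose! g hg hgA using hA
  set Z := (univ : Finset (Fin 7 → Fin N)).filter Function.Injective with hZ
  have hZc : Z.card = N.descFactorial 7 := by
    have h1 := Fintype.card_embedding_eq (α := Fin 7) (β := Fin N)
    rw [Fintype.card_fin, Fintype.card_fin] at h1
    have h2 : Z.card = Fintype.card {z : Fin 7 → Fin N // Function.Injective z} := by
      rw [Fintype.card_subtype]
    rw [← h1, h2]
    exact Fintype.card_congr (Equiv.subtypeInjectiveEquivEmbedding _ _)
  have h1 : Z ⊆ ((univ : Finset (Fin 6 → Fin 7)).filter Function.Injective).biUnion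
      (fun g => Z.filter (fun z => z ∘ g ∈ A)) := by
    intro z hz
    have hz' : Function.Injective z := by
      rw [hZ, mem_filter] at hz
      exact hz.2
    rw [mem_biUnion]
    refine ⟨g z, ?_, ?_⟩
    · rw [mem_filter]
      exact ⟨mem_univ _, hg z hz'⟩
    · rw [mem_filter]
      exact ⟨hz, hgA z hz'⟩
  have h2 : ∀ g ∈ ((univ : Finset (Fin 6 → Fin 7)).filter Function.Injective),
      (Z.filter (fun z => z ∘ g ∈ A)).card ≤ A.card * N := by
    clear hg hgA g
    intro g hg
    rw [mem_filter] at hg
    have hg := hg.2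
    obtain ⟨m, hm⟩ : ∃ m, m ∉ Set.range g := by
      by_contra hcon
      push Not at hcon
      have h3 := Fintype.card_le_of_surjective g hcon
      simp at h3
    have hcov : ∀ i, i ≠ m → ∃ k, g k = i := by
      intro i hi
      by_contra hcon
      push Not at hcon
      have h3 : (univ.image g) ⊆ univ \ {m, i} := by
        intro j hj
        obtain ⟨k, _, rfl⟩ := mem_image.mp hj
        rw [mem_sdiff, mem_insert, mem_singleton, not_or]
        exact ⟨mem_univ _, fun h => hm ⟨k, h⟩, hcon k⟩
      have h4 := card_le_card h3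
      rw [card_image_of_injective _ hg, card_sdiff_of_subset (subset_univ _),
        card_pair (Ne.symm hi)] at h4
      simp at h4
    have h5 : (Z.filter (fun z => z ∘ g ∈ A)).card ≤ (A ×ˢ (univ : Finset (Fin N))).card := by
      apply card_le_card_of_injOn (fun z => (z ∘ g, z m))
      · intro z hz
        have hz' : z ∈ Z.filter (fun z => z ∘ g ∈ A) := hz
        exact mem_product.mpr ⟨(mem_filter.mp hz').2, mem_univ _⟩
      · intro z _ z' _ hzz
        have e1 := congrArg Prod.fst hzz
        have e2 := congrArg Prod.snd hzz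
        funext i
        by_cases hi : i = m
        · rw [hi]; exact e2
        · obtain ⟨k, rfl⟩ := hcov i hi
          exact congrFun e1 k
    rw [card_product, card_univ, Fintype.card_fin] at h5
    exact h5
  have h3 : Z.card ≤ 7 ^ 6 * (A.card * N) := by
    refine (card_le_card h1).trans (card_biUnion_le.trans ((sum_le_sum h2).trans ?_))
    rw [sum_const, smul_eq_mul]
    apply Nat.mul_le_mul_right
    refine (card_le_univ _).trans ?_
    simp
  rw [hZc] at h3
  have h4 : (N + 1 - 7) ^ 7 ≤ N.descFactorial 7 := Nat.pow_sub_le_descFactorial N 7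
  have h5 : N ≤ 2 * (N + 1 - 7) := by omega
  have h6 : N ^ 7 ≤ 128 * (7 ^ 6 * (A.card * N)) := by
    calc N ^ 7 ≤ (2 * (N + 1 - 7)) ^ 7 := Nat.pow_le_pow_left h5 7
      _ = 128 * (N + 1 - 7) ^ 7 := by rw [mul_pow]; norm_num
      _ ≤ 128 * (7 ^ 6 * (A.card * N)) := Nat.mul_le_mul_left _ (h4.trans h3)
  have h7 : (N : ℝ) ^ 7 ≤ 15059072 * A.card * N := by
    have : ((N ^ 7 : ℕ) : ℝ) ≤ ((128 * (7 ^ 6 * (A.card * N)) : ℕ) : ℝ) := by exact_mod_cast h6
    push_cast at this
    linarith
  have hNpos : (0 : ℝ) < N := by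
    have : 0 < N := by omega
    exact_mod_cast this
  have h8 : (N : ℝ) ^ 6 * N ≤ 15059072 * A.card * N := by
    rw [← pow_succ]; exact h7
  exact le_of_mul_le_mul_right h8 hNpos

end Pool.Agent.H57.LinDim
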