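import Mathlib
import Pool.Agent.H57.Warren
import Pool.Agent.H57.LinDim.Generic
import Pool.Agent.H57.LinDim.Select

set_option autoImplicit false
set_option linter.unusedSectionVars false
set_option linter.unusedVariables false

/-!
# A sparse system of pairs of triangles which crosses in every configuration in dimension four
-/

namespace Pool.Agent.H57.LinDim

open Finset

/-- the orientation determinant as a polynomial in the coordinates -/
noncomputable def fpol {N : ℕ} (c : Fin 5 → Fin N) : MvPolynomial (Fin N × Fin 4) ℝ :=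
  Matrix.det (Matrix.of (fun (k : Fin 5) (a : Fin 5) =>
    (Fin.cons 1 (fun b : Fin 4 => MvPolynomial.X (c k, b)) : Fin 5 → MvPolynomial (Fin N × Fin 4) ℝ) a))

lemma eval_fpol {N : ℕ} (c : Fin 5 → Fin N) (x : Fin N × Fin 4 → ℝ) :
    MvPolynomial.eval x (fpol c) = D (fun i b => x (i, b)) c := by
  rw [D_eq]
  unfold fpol
  rw [RingHom.map_det]
  show Matrix.det _ = Matrix.det _
  congr 1
  funext k a
  rw [RingHom.mapMatrix_apply, Matrix.map_apply, Matrix.of_apply]
  refine Fin.cases ?_ (fun a => ?_) a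
  · simp [vec]
  · simp [vec]

lemma totalDegree_fpol {N : ℕ} (c : Fin 5 → Fin N) : (fpol c).totalDegree ≤ 5 := by
  classical
  unfold fpol
  rw [Matrix.det_apply]
  refine (MvPolynomial.totalDegree_finsetSum_le ?_)
  intro σ _
  refine (MvPolynomial.totalDegree_smul_le _ _).trans ?_
  refine (MvPolynomial.totalDegree_finsetProd _ _).trans ?_
  refine (sum_le_card_nsmul _ _ 1 ?_).trans ?_
  · intro a _
    rw [Matrix.of_apply]
    refine Fin.cases ?_ (fun a => ?_) a
    · simp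
    · simp [MvPolynomial.totalDegree_X]
  · simp

/-- the number of order types -/
lemma card_orient (N : ℕ) (S : Finset ((Fin 5 → Fin N) → SignType))
    (hS : ∀ τ ∈ S, ∃ p : Fin N → Fin 4 → ℝ, ∀ c, SignType.sign (D p c) = τ c) :
    S.card ≤ (4 * (N ^ 5 * 5) + 1) ^ (N * 4) := by
  have h := Pool.Agent.H57.Warren.sign_count (ι := Fin N × Fin 4) (J := Fin 5 → Fin N)
    (fun c => fpol c) 5 (fun c => totalDegree_fpol c) S (by
      intro τ hτ
      obtain ⟨p, hp⟩ := hS τ hτ
      refine ⟨fun x => p x.1 x.2, fun c => ?_⟩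
      rw [eval_fpol]
      exact hp c)
  have e1 : Fintype.card (Fin 5 → Fin N) = N ^ 5 := by simp
  have e2 : Fintype.card (Fin N × Fin 4) = N * 4 := by simp
  rw [e1, e2] at h
  exact h

lemma pow_half (K : ℕ) (hK : 1 ≤ K) : (1 - 1 / (K : ℝ)) ^ K ≤ 1 / 2 := by
  have h4 := Real.one_sub_div_pow_le_exp_neg (n := K) (t := 1) (by exact_mod_cast hK)
  have h5 : Real.exp (-1) ≤ 1 / 2 := by
    rw [Real.exp_neg, one_div]
    apply inv_anti₀ (by norm_num)
    have := Real.add_one_le_exp (1 : ℝ)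
    linarith
  exact h4.trans h5

/-- the numerical conditions -/
lemma numbers : ∃ N M : ℕ, 12 ≤ N ∧ ((4 * (N ^ 5 * 5) + 1 : ℕ) : ℝ) ^ (N * 4) *
      (1 - 1 / 30118144) ^ M < 1 ∧ (M : ℝ) * (1296 * (N : ℝ) ^ 4) ≤ (N : ℝ) ^ 6 / 30118144 := by
  obtain ⟨N, hN⟩ : ∃ N : ℕ, N = 2 ^ 80 := ⟨_, rfl⟩
  obtain ⟨K, hK⟩ : ∃ K : ℕ, K = 30118144 := ⟨_, rfl⟩
  have hNr : (N : ℝ) = 2 ^ 80 := by rw [hN]; norm_num
  have hKr : (K : ℝ) = 30118144 := by rw [hK]; norm_num
  have hK1 : 1 ≤ K := by rw [hK]; norm_num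
  refine ⟨N, K * (1620 * N + 1), ?_, ?_, ?_⟩
  · rw [hN]; norm_num
  · rw [← hKr]
    have h1 : ((4 * (N ^ 5 * 5) + 1 : ℕ) : ℝ) ≤ 2 ^ 405 := by
      have e1 : (2 : ℝ) ^ 405 = (N : ℝ) ^ 5 * 32 := by
        rw [hNr, ← pow_mul, show (32 : ℝ) = 2 ^ 5 by norm_num, ← pow_add]
      have e2 : (1 : ℝ) ≤ (N : ℝ) ^ 5 := by
        apply one_le_pow₀
        rw [hNr]
        norm_num
      rw [e1]
      push_cast
      clear e1 hNr hN hKr hK
      generalize (N : ℝ) ^ 5 = x at e2 ⊢
      linarith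
    have h2 : ((4 * (N ^ 5 * 5) + 1 : ℕ) : ℝ) ^ (N * 4) ≤ 2 ^ (1620 * N) := by
      calc _ ≤ ((2 : ℝ) ^ 405) ^ (N * 4) := pow_le_pow_left₀ (Nat.cast_nonneg _) h1 _
        _ = 2 ^ (1620 * N) := by
          rw [← pow_mul]
          congr 1
          ring
    have h0 : (0 : ℝ) ≤ 1 - 1 / (K : ℝ) := by
      rw [sub_nonneg]
      rw [div_le_one (by exact_mod_cast hK1)]
      exact_mod_cast hK1
    have h6 : (1 - 1 / (K : ℝ)) ^ (K * (1620 * N + 1)) ≤ (1 / 2) ^ (1620 * N + 1) := by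
      rw [pow_mul]
      exact pow_le_pow_left₀ (pow_nonneg h0 _) (pow_half K hK1) _
    have h7 : ((4 * (N ^ 5 * 5) + 1 : ℕ) : ℝ) ^ (N * 4) * (1 - 1 / (K : ℝ)) ^ (K * (1620 * N + 1)) ≤
        (2 : ℝ) ^ (1620 * N) * (1 / 2) ^ (1620 * N + 1) :=
      mul_le_mul h2 h6 (pow_nonneg h0 _) (pow_nonneg (by norm_num) _)
    have h8 : (2 : ℝ) ^ (1620 * N) * (1 / 2) ^ (1620 * N + 1) = 1 / 2 := by
      generalize 1620 * N = n
      rw [pow_succ, ← mul_assoc, ← mul_pow, show (2 : ℝ) * (1 / 2) = 1 by norm_num, one_pow,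
        one_mul]
    rw [h8] at h7
    exact lt_of_le_of_lt h7 (by norm_num)
  · rw [← hKr]
    have h7 : (1296 * ((K : ℝ) * (1620 * (N : ℝ) + 1))) * K ≤ (N : ℝ) ^ 2 := by
      rw [hNr, hKr]
      norm_num
    have h8 : (0 : ℝ) ≤ (N : ℝ) ^ 4 := by positivity
    have hKpos : (0 : ℝ) < K := by exact_mod_cast hK1
    push_cast
    rw [le_div_iff₀ hKpos]
    calc (K : ℝ) * (1620 * (N : ℝ) + 1) * (1296 * (N : ℝ) ^ 4) * K
        = (1296 * ((K : ℝ) * (1620 * (N : ℝ) + 1))) * K * (N : ℝ) ^ 4 := by ring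
      _ ≤ (N : ℝ) ^ 2 * (N : ℝ) ^ 4 := mul_le_mul_of_nonneg_right h7 h8
      _ = (N : ℝ) ^ 6 := by ring

/-- **The main combinatorial statement.** There are finitely many six-tuples of distinct points,
any two of which share at most one point, such that for every placement of the points in `ℝ⁴` one of
the six-tuples is a pair of intersecting triangles. -/
theorem exists_system : ∃ (N : ℕ) (L : Finset (Fin 6 → Fin N)),
    (∀ w ∈ L, Function.Injective w) ∧ (∀ w ∈ L, ∀ w' ∈ L, w ≠ w' → Apart w w') ∧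
    ∀ p : Fin N → Fin 4 → ℝ, ∃ w ∈ L, Cross p w := by
  classical
  obtain ⟨N, M, hN12, hNM, hMN⟩ := numbers
  let S : Finset ((Fin 5 → Fin N) → SignType) := univ.filter (fun τ =>
    ∃ p : Fin N → Fin 4 → ℝ, Gen p ∧ ∀ c, SignType.sign (D p c) = τ c)
  have hS : ∀ τ ∈ S, ∃ p : Fin N → Fin 4 → ℝ, Gen p ∧ ∀ c, SignType.sign (D p c) = τ c :=
    fun τ hτ => (mem_filter.mp hτ).2
  choose! P hP using hS
  have hScard : (S.card : ℝ) ≤ ((4 * (N ^ 5 * 5) + 1 : ℕ) : ℝ) ^ (N * 4) := by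
    have := card_orient N S (fun τ hτ => ⟨P τ, (hP τ hτ).2⟩)
    exact_mod_cast this
  have : Nonempty (Fin N) := ⟨⟨0, by omega⟩⟩
  let good : Finset (Fin 6 → Fin N) → Prop := fun L =>
    (∀ w ∈ L, Function.Injective w) ∧ (∀ w ∈ L, ∀ w' ∈ L, w ≠ w' → Apart w w')
  let ok : Finset (Fin 6 → Fin N) → (Fin 6 → Fin N) → Prop := fun L w =>
    Function.Injective w ∧ ∀ w' ∈ L, Apart w w'
  obtain ⟨L, hL, hhit⟩ := greedy S (fun τ w => Cross (P τ) w) good ok (1 / 30118144) (by norm_num)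
    (by norm_num) M ⟨by simp, by simp⟩ (by
      rintro L w ⟨h1, h2⟩ ⟨h3, h4⟩ L' hL'
      refine ⟨?_, ?_⟩
      · intro v hv
        rcases (hL' v).mp hv with rfl | hv
        · exact h3
        · exact h1 v hv
      · intro v hv v' hv' hne
        rcases (hL' v).mp hv with rfl | hv
        · rcases (hL' v').mp hv' with rfl | hv'
          · exact absurd rfl hne
          · exact h4 v' hv'
        · rcases (hL' v').mp hv' with rfl | hv'
          · exact apart_symm (h1 v hv) (h4 v hv)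
          · exact h2 v hv v' hv' hne) (by
      intro L hL hLc τ hτ A hA
      -- the injective tuples which cross
      set B := (univ : Finset (Fin 6 → Fin N)).filter (fun w => Function.Injective w ∧
        Cross (P τ) w) with hB
      have h1 : (N : ℝ) ^ 6 ≤ 15059072 * B.card := by
        apply card_family hN12
        intro z hz
        obtain ⟨g, hg, hc⟩ := exists_cross (P τ) z
        refine ⟨g, hg, ?_⟩
        rw [hB, mem_filter]
        exact ⟨mem_univ _, hz.comp hg, hc⟩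
      have h2 : (B \ A).card ≤ L.card * (1296 * N ^ 4) := by
        apply card_bad
        intro w hw
        rw [mem_sdiff, hB, mem_filter, hA w] at hw
        obtain ⟨⟨_, hinj, hcr⟩, hnot⟩ := hw
        by_contra hcon
        push Not at hcon
        exact hnot ⟨⟨hinj, hcon⟩, hcr⟩
      have h3 : B.card ≤ A.card + (B \ A).card := by
        have h4 : B ⊆ A ∪ (B \ A) := by
          intro w hw
          rw [mem_union, mem_sdiff]
          by_cases h : w ∈ A
          · exact Or.inl h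
          · exact Or.inr ⟨hw, h⟩
        exact (card_le_card h4).trans (card_union_le _ _)
      have h5 : Fintype.card (Fin 6 → Fin N) = N ^ 6 := by simp
      have h6 : ((B \ A).card : ℝ) ≤ (M : ℝ) * (1296 * (N : ℝ) ^ 4) := by
        have h7 : (B \ A).card ≤ M * (1296 * N ^ 4) :=
          h2.trans (Nat.mul_le_mul_right _ hLc.le)
        exact_mod_cast h7
      have h8 : (B.card : ℝ) ≤ A.card + ((B \ A).card : ℝ) := by exact_mod_cast h3
      rw [h5]
      push_cast
      linarith) (by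
      refine lt_of_le_of_lt (mul_le_mul_of_nonneg_right hScard (pow_nonneg (by norm_num) _)) hNM)
  refine ⟨N, L, hL.1, hL.2, ?_⟩
  apply of_gen
  intro p hp
  have hτ : (fun c => SignType.sign (D p c)) ∈ S :=
    mem_filter.mpr ⟨mem_univ _, p, hp, fun c => rfl⟩
  obtain ⟨w, hw, hc⟩ := hhit _ hτ
  obtain ⟨hg, hs⟩ := hP _ hτ
  exact ⟨w, hw, determ hg hp hs (hL.1 w hw) hc⟩

end Pool.Agent.H57.LinDim
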