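import Mathlib
import Pool.Agent.H57.LinDim.Base

set_option autoImplicit false
set_option linter.unusedSectionVars false
set_option linter.unusedVariables false

/-!
# The standard geometric realisation of an abstract simplicial complex
-/

namespace Pool.Agent.H57.LinDim

open Finset

/-- the standard basis -/
noncomputable def std (n : ℕ) (i : Fin n) : EuclideanSpace ℝ (Fin n) := EuclideanSpace.single i 1

lemma std_apply {n : ℕ} (i j : Fin n) : std n i j = if j = i then 1 else 0 := by
  simp [std]

lemma std_inj (n : ℕ) : Function.Injective (std n) := by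
  intro i j h
  by_contra hne
  have h1 : std n i i = std n j i := by rw [h]
  rw [std_apply, std_apply, if_pos rfl, if_neg hne] at h1
  exact one_ne_zero h1

lemma std_indep (n : ℕ) : AffineIndependent ℝ (std n) := by
  apply LinearIndependent.affineIndependent
  have h : std n = ⇑(EuclideanSpace.basisFun (Fin n) ℝ).toBasis := by
    funext i
    simp [std]
  rw [h]
  exact (EuclideanSpace.basisFun (Fin n) ℝ).toBasis.linearIndependent

lemma sum_std_apply {n : ℕ} (s : Finset (Fin n)) (w : Fin n → ℝ) (j : Fin n) :
    (∑ i ∈ s, w i • std n i) j = if j ∈ s then w j else 0 := by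
  have h1 : (∑ i ∈ s, w i • std n i) j = ∑ i ∈ s, (w i • std n i) j := by
    simp
  rw [h1]
  have h2 : ∀ i ∈ s, (w i • std n i) j = if j = i then w i else 0 := by
    intro i _
    show w i • (std n i j) = _
    rw [std_apply]
    split_ifs <;> simp
  rw [sum_congr rfl h2, sum_ite_eq]

lemma mem_hull_std {n : ℕ} (s : Finset (Fin n)) (z : EuclideanSpace ℝ (Fin n)) :
    z ∈ hull (std n) s ↔ (∀ i, 0 ≤ z i) ∧ ∑ i, z i = 1 ∧ ∀ i, i ∉ s → z i = 0 := by
  rw [mem_hull_iff]
  constructor
  · rintro ⟨w, hw0, hw1, rfl⟩
    refine ⟨?_, ?_, ?_⟩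
    · intro i
      rw [sum_std_apply]
      split_ifs with h
      · exact hw0 i h
      · exact le_rfl
    · simp only [sum_std_apply]
      rw [← hw1, sum_ite_mem, univ_inter]
    · intro i hi
      rw [sum_std_apply, if_neg hi]
  · rintro ⟨h0, h1, h2⟩
    refine ⟨fun i => z i, fun i _ => h0 i, ?_, ?_⟩
    · rw [← h1]
      exact sum_subset (subset_univ _) (fun i _ hi => h2 i hi)
    · ext j
      rw [sum_std_apply]
      split_ifs with h
      · rfl
      · exact (h2 j h).symm

/-- every downward closed family containing the singletons is realised by the standard basis -/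
lemma std_cert {n : ℕ} (M : Finset (Finset (Fin n))) (hne : ∀ s ∈ M, s.Nonempty)
    (hsing : ∀ i, {i} ∈ M) (hdown : ∀ s ∈ M, ∀ t, t ⊆ s → t.Nonempty → t ∈ M) :
    Cert M (std n) where
  ne := hne
  sing := hsing
  cap := fun s hs t _ h => hdown s hs _ inter_subset_left h
  expose := by
    classical
    intro s _ t ht hts
    refine ⟨∑ i ∈ t, (EuclideanSpace.proj (𝕜 := ℝ) i).toLinearMap, 1, ?_, ?_⟩
    · intro i hi
      rw [LinearMap.sum_apply]
      show ∑ j ∈ t, (std n i) j = 1
      simp only [std_apply]
      rw [sum_ite_eq', if_pos hi]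
    · intro i _ hi
      rw [LinearMap.sum_apply]
      show ∑ j ∈ t, (std n i) j < 1
      simp only [std_apply]
      rw [sum_ite_eq', if_neg hi]
      exact one_pos
  inter := by
    intro s _ t _ z hz1 hz2
    have h1 := (mem_hull_std s z).mp hz1
    have h2 := (mem_hull_std t z).mp hz2
    apply (mem_hull_std (s ∩ t) z).mpr
    refine ⟨h1.1, h1.2.1, ?_⟩
    intro i hi
    rw [mem_inter, not_and_or] at hi
    rcases hi with hi | hi
    · exact h1.2.2 i hi
    · exact h2.2.2 i hi
  arg := by
    classical
    intro s hs f c _ hex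
    obtain ⟨i0, hi0, hc⟩ := hex
    refine ⟨s.filter (fun i => f (std n i) = c), ?_, filter_subset _ _, ?_⟩
    · apply hdown s hs _ (filter_subset _ _)
      exact ⟨i0, mem_filter.mpr ⟨hi0, hc⟩⟩
    · intro i hi
      rw [mem_filter]
      exact ⟨fun h => ⟨hi, h⟩, fun h => h.2⟩
  inj := std_inj n

section complex

variable {n : ℕ} {M : Finset (Finset (Fin n))} (h : Cert M (std n))

lemma std_simplicial : IsSimplicial h.cplx := by
  classical
  rintro _ ⟨s, hs, rfl⟩
  refine ⟨s.image (std n), ?_, ?_⟩
  · have h1 := (std_indep n).range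
    exact h1.mono (by
      rw [coe_image]
      exact Set.image_subset_range _ _)
  · rw [coe_image]
    rfl

lemma std_two (h3 : ∀ s ∈ M, s.card ≤ 3) : IsTwoComplex h.cplx := by
  classical
  rintro _ ⟨s, hs, rfl⟩
  have h1 : vectorSpan ℝ (hull (std n) s) = vectorSpan ℝ ((s.image (std n) : Finset _) : Set
      (EuclideanSpace ℝ (Fin n))) := by
    rw [← direction_affineSpan, ← direction_affineSpan, coe_image]
    unfold hull
    rw [affineSpan_convexHull]
  show Module.finrank ℝ (vectorSpan ℝ (hull (std n) s)) ≤ 2
  rw [h1]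
  have hpos : 0 < s.card := card_pos.mpr (h.ne s hs)
  have h2 := finrank_vectorSpan_image_finset_le ℝ (std n) s (n := s.card - 1) (by omega)
  have := h3 s hs
  omega

end complex

end Pool.Agent.H57.LinDim
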