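import Mathlib
import Pool.Agent.H57.LinDim.Std

set_option autoImplicit false
set_option linter.unusedSectionVars false
set_option linter.unusedVariables false

/-!
# Triangles any two of which share at most one vertex embed topologically into space

All vertices lie on a line, and every triangle has its own half-plane bounded by this line.
-/

namespace Pool.Agent.H57.LinDim

open Finset

section alg

variable {N : ℕ}

/-- heights of the vertices -/
def zz (i : Fin N) : ℝ := ((i : ℕ) : ℝ)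

lemma zz_inj {i j : Fin N} (h : zz i = zz j) : i = j := by
  unfold zz at h
  apply Fin.ext
  exact_mod_cast h

/-- the mean height -/
noncomputable def m1 (a : Fin N → ℝ) : ℝ := ∑ i, a i * zz i

/-- the mean squared height -/
noncomputable def m2 (a : Fin N → ℝ) : ℝ := ∑ i, a i * zz i ^ 2

/-- the variance of the height, for weights supported by `T` -/
noncomputable def VV (T : Finset (Fin N)) (a : Fin N → ℝ) : ℝ :=
  (∑ i ∈ T, ∑ j ∈ T, a i * a j * (zz i - zz j) ^ 2) / 2

lemma VV_univ {a : Fin N → ℝ} (ha : ∑ i, a i = 1) : VV univ a = m2 a - m1 a ^ 2 := by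
  unfold VV
  have h1 : ∀ i j : Fin N, a i * a j * (zz i - zz j) ^ 2 =
      (a i * zz i ^ 2) * a j + a i * (a j * zz j ^ 2) - 2 * ((a i * zz i) * (a j * zz j)) := by
    intro i j
    ring
  simp only [h1, sum_sub_distrib, sum_add_distrib, ← mul_sum, ← sum_mul]
  rw [ha]
  unfold m1 m2
  ring

lemma VV_eq {T : Finset (Fin N)} {a : Fin N → ℝ} (ha : ∑ i, a i = 1) (hT : ∀ i, i ∉ T → a i = 0) :
    VV T a = m2 a - m1 a ^ 2 := by
  rw [← VV_univ ha]
  unfold VV
  congr 1
  have h1 : ∀ i, ∑ j ∈ T, a i * a j * (zz i - zz j) ^ 2 = ∑ j, a i * a j * (zz i - zz j) ^ 2 := by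
    intro i
    apply sum_subset (subset_univ _)
    intro j _ hj
    rw [hT j hj]
    ring
  simp only [h1]
  apply sum_subset (subset_univ _)
  intro i _ hi
  rw [hT i hi]
  simp

lemma var_nonneg {a : Fin N → ℝ} (ha0 : ∀ i, 0 ≤ a i) (ha : ∑ i, a i = 1) :
    0 ≤ m2 a - m1 a ^ 2 := by
  rw [← VV_univ ha]
  unfold VV
  apply div_nonneg _ (by norm_num)
  apply sum_nonneg
  intro i _
  apply sum_nonneg
  intro j _
  exact mul_nonneg (mul_nonneg (ha0 i) (ha0 j)) (sq_nonneg _)

lemma var_zero {a : Fin N → ℝ} (ha0 : ∀ i, 0 ≤ a i) (ha : ∑ i, a i = 1)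
    (h : m2 a - m1 a ^ 2 = 0) : ∃ i, ∀ j, a j = if j = i then 1 else 0 := by
  rw [← VV_univ ha] at h
  unfold VV at h
  have h1 : ∑ i, ∑ j, a i * a j * (zz i - zz j) ^ 2 = 0 := by linarith
  have hnn : ∀ i j : Fin N, 0 ≤ a i * a j * (zz i - zz j) ^ 2 := fun i j =>
    mul_nonneg (mul_nonneg (ha0 i) (ha0 j)) (sq_nonneg _)
  have h2 : ∀ i j, a i * a j * (zz i - zz j) ^ 2 = 0 := by
    intro i j
    have h3 := (sum_eq_zero_iff_of_nonneg (fun i _ => sum_nonneg (fun j _ => hnn i j))).mp h1 i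
      (mem_univ i)
    exact (sum_eq_zero_iff_of_nonneg (fun j _ => hnn i j)).mp h3 j (mem_univ j)
  obtain ⟨i, hi⟩ : ∃ i, a i ≠ 0 := by
    by_contra hcon
    push Not at hcon
    rw [sum_eq_zero (fun i _ => hcon i)] at ha
    exact zero_ne_one ha
  have h3 : ∀ j, j ≠ i → a j = 0 := by
    intro j hj
    rcases mul_eq_zero.mp (h2 i j) with h4 | h4
    · exact (mul_eq_zero.mp h4).resolve_left hi
    · exact absurd (zz_inj (sub_eq_zero.mp (pow_eq_zero_iff (by norm_num) |>.mp h4))).symm hj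
  refine ⟨i, fun j => ?_⟩
  split_ifs with hj
  · rw [hj, ← ha]
    exact (sum_eq_single i (fun j _ hj => h3 j hj) (fun h => absurd (mem_univ i) h)).symm
  · exact h3 j hj

lemma var_vertex {a : Fin N → ℝ} {i : Fin N} (h : ∀ j, a j = if j = i then 1 else 0) :
    m1 a = zz i ∧ m2 a = zz i ^ 2 := by
  unfold m1 m2
  constructor
  · rw [sum_eq_single i]
    · rw [h i, if_pos rfl, one_mul]
    · intro j _ hj
      rw [h j, if_neg hj, zero_mul]
    · intro h
      exact absurd (mem_univ i) h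
  · rw [sum_eq_single i]
    · rw [h i, if_pos rfl, one_mul]
    · intro j _ hj
      rw [h j, if_neg hj, zero_mul]
    · intro h
      exact absurd (mem_univ i) h

lemma VV_other {T T' : Finset (Fin N)} {a : Fin N → ℝ} (hTT : (T ∩ T').card ≤ 1)
    (hT : ∀ i, i ∉ T → a i = 0) : VV T' a = 0 := by
  unfold VV
  rw [sum_eq_zero, zero_div]
  intro i hi
  apply sum_eq_zero
  intro j hj
  by_cases h1 : i ∈ T
  · by_cases h2 : j ∈ T
    · have h3 : i = j := card_le_one.mp hTT i (mem_inter.mpr ⟨h1, hi⟩) j (mem_inter.mpr ⟨h2, hj⟩)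
      rw [h3]
      ring
    · rw [hT j h2]
      ring
  · rw [hT i h1]
    ring

lemma unique_on {T : Finset (Fin N)} (hT3 : T.card = 3) {a b : Fin N → ℝ}
    (ha : ∀ i, i ∉ T → a i = 0) (hb : ∀ i, i ∉ T → b i = 0) (h0 : ∑ i, a i = ∑ i, b i)
    (h1 : m1 a = m1 b) (h2 : m2 a = m2 b) : a = b := by
  funext u
  by_cases hu : u ∈ T
  · have h3 : (T.erase u).card = 2 := by rw [card_erase_of_mem hu, hT3]
    obtain ⟨v, w, hvw, hvwT⟩ := card_eq_two.mp h3
    have hv : v ∈ T.erase u := by rw [hvwT]; simp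
    have hw : w ∈ T.erase u := by rw [hvwT]; simp
    have h4 : ∑ i, (a i - b i) * ((zz i - zz v) * (zz i - zz w)) = 0 := by
      have h5 : ∀ i, (a i - b i) * ((zz i - zz v) * (zz i - zz w)) =
          (a i * zz i ^ 2 - b i * zz i ^ 2) - (zz v + zz w) * (a i * zz i - b i * zz i) +
          zz v * zz w * (a i - b i) := by
        intro i
        ring
      simp only [h5, sum_sub_distrib, sum_add_distrib, ← mul_sum]
      unfold m1 at h1
      unfold m2 at h2
      rw [h0, h1, h2]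
      ring
    rw [sum_eq_single u] at h4
    · have h5 : zz u - zz v ≠ 0 := by
        intro h6
        exact (mem_erase.mp hv).1 (zz_inj (sub_eq_zero.mp h6)).symm
      have h6 : zz u - zz w ≠ 0 := by
        intro h6
        exact (mem_erase.mp hw).1 (zz_inj (sub_eq_zero.mp h6)).symm
      exact sub_eq_zero.mp ((mul_eq_zero.mp h4).resolve_right (mul_ne_zero h5 h6))
    · intro i _ hi
      by_cases hiT : i ∈ T
      · have h5 : i ∈ T.erase u := mem_erase.mpr ⟨hi, hiT⟩
        rw [hvwT, mem_insert, mem_singleton] at h5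
        rcases h5 with rfl | rfl
        · ring
        · ring
      · rw [ha i hiT, hb i hiT]
        ring
    · intro h
      exact absurd (mem_univ u) h
  · rw [ha u hu, hb u hu]

/-- the slope of the page of a triangle -/
noncomputable def sl (T : Finset (Fin N)) : ℝ := ((Fintype.equivFin (Finset (Fin N)) T : ℕ) : ℝ)

lemma sl_inj {T T' : Finset (Fin N)} (h : sl T = sl T') : T = T' := by
  unfold sl at h
  have h1 : ((Fintype.equivFin (Finset (Fin N)) T : ℕ)) = (Fintype.equivFin (Finset (Fin N)) T' : ℕ) := by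
    exact_mod_cast h
  exact (Fintype.equivFin (Finset (Fin N))).injective (Fin.ext h1)

/-- the second coordinate -/
noncomputable def GG (H : Finset (Finset (Fin N))) (a : Fin N → ℝ) : ℝ := ∑ T ∈ H, sl T * VV T a

lemma GG_eq {H : Finset (Finset (Fin N))}
    (hH : ∀ T ∈ H, ∀ T' ∈ H, T ≠ T' → (T ∩ T').card ≤ 1) {T : Finset (Fin N)} (hT : T ∈ H)
    {a : Fin N → ℝ} (ha : ∑ i, a i = 1) (haT : ∀ i, i ∉ T → a i = 0) :
    GG H a = sl T * (m2 a - m1 a ^ 2) := by
  unfold GG
  rw [sum_eq_single T]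
  · rw [VV_eq ha haT]
  · intro T' hT' hne
    rw [VV_other (hH T hT T' hT' (Ne.symm hne)) haT, mul_zero]
  · intro h
    exact absurd hT h

end alg

section embed

variable {N : ℕ}

/-- the main coordinates -/
def aa (x : EuclideanSpace ℝ (Fin (N + 4))) (i : Fin N) : ℝ := x (Fin.castAdd 4 i)

/-- the last four coordinates -/
def bb (x : EuclideanSpace ℝ (Fin (N + 4))) (k : Fin 4) : ℝ := x (Fin.natAdd N k)

lemma ext_ab {x y : EuclideanSpace ℝ (Fin (N + 4))} (h1 : aa x = aa y) (h2 : bb x = bb y) :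
    x = y := by
  ext i
  refine Fin.addCases (fun i => ?_) (fun k => ?_) i
  · exact congrFun h1 i
  · exact congrFun h2 k

/-- the embedding into space -/
noncomputable def Phi (H : Finset (Finset (Fin N))) (x : EuclideanSpace ℝ (Fin (N + 4))) : E3 :=
  !₂[m2 (aa x) - m1 (aa x) ^ 2 - (bb x 0 + 2 * bb x 1 + bb x 2 + bb x 3), GG H (aa x) + bb x 2,
    m1 (aa x) + bb x 3]

lemma Phi_cont (H : Finset (Finset (Fin N))) : Continuous (Phi H) := by
  have hx : ∀ i : Fin (N + 4), Continuous (fun x : EuclideanSpace ℝ (Fin (N + 4)) => x i) :=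
    fun i => (EuclideanSpace.proj (𝕜 := ℝ) i).continuous
  have ha : ∀ i : Fin N, Continuous (fun x : EuclideanSpace ℝ (Fin (N + 4)) => aa x i) :=
    fun i => hx _
  have hb : ∀ k : Fin 4, Continuous (fun x : EuclideanSpace ℝ (Fin (N + 4)) => bb x k) :=
    fun k => hx _
  have hm1 : Continuous (fun x : EuclideanSpace ℝ (Fin (N + 4)) => m1 (aa x)) := by
    unfold m1
    exact continuous_finsetSum _ (fun i _ => (ha i).mul continuous_const)
  have hm2 : Continuous (fun x : EuclideanSpace ℝ (Fin (N + 4)) => m2 (aa x)) := by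
    unfold m2
    exact continuous_finsetSum _ (fun i _ => (ha i).mul continuous_const)
  have hG : Continuous (fun x : EuclideanSpace ℝ (Fin (N + 4)) => GG H (aa x)) := by
    unfold GG VV
    refine continuous_finsetSum _ (fun T _ => continuous_const.mul (Continuous.div_const ?_ _))
    refine continuous_finsetSum _ (fun i _ => continuous_finsetSum _ (fun j _ => ?_))
    exact ((ha i).mul (ha j)).mul continuous_const
  unfold Phi
  apply (PiLp.continuous_toLp 2 _).comp
  apply continuous_pi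
  intro i
  fin_cases i
  · exact (hm2.sub (hm1.pow 2)).sub ((((hb 0).add (continuous_const.mul (hb 1))).add (hb 2)).add
      (hb 3))
  · exact hG.add (hb 2)
  · exact hm1.add (hb 3)

/-- points of the triangles and the vertices -/
def IsMain (H : Finset (Finset (Fin N))) (x : EuclideanSpace ℝ (Fin (N + 4))) : Prop :=
  (∀ i, 0 ≤ aa x i) ∧ ∑ i, aa x i = 1 ∧ (∀ k, bb x k = 0) ∧
    ((∃ T ∈ H, ∀ i, i ∉ T → aa x i = 0) ∨ ∃ i, ∀ j, aa x j = if j = i then 1 else 0)

/-- points of the tetrahedron -/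
def IsTet (x : EuclideanSpace ℝ (Fin (N + 4))) : Prop :=
  (∀ i, aa x i = 0) ∧ (∀ k, 0 ≤ bb x k) ∧ ∑ k, bb x k = 1

lemma Phi0 (H : Finset (Finset (Fin N))) (x : EuclideanSpace ℝ (Fin (N + 4))) :
    Phi H x 0 = m2 (aa x) - m1 (aa x) ^ 2 - (bb x 0 + 2 * bb x 1 + bb x 2 + bb x 3) := rfl

lemma Phi1 (H : Finset (Finset (Fin N))) (x : EuclideanSpace ℝ (Fin (N + 4))) :
    Phi H x 1 = GG H (aa x) + bb x 2 := rfl

lemma Phi2 (H : Finset (Finset (Fin N))) (x : EuclideanSpace ℝ (Fin (N + 4))) :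
    Phi H x 2 = m1 (aa x) + bb x 3 := rfl

lemma main_nonneg {H : Finset (Finset (Fin N))} {x : EuclideanSpace ℝ (Fin (N + 4))}
    (hx : IsMain H x) : 0 ≤ Phi H x 0 := by
  obtain ⟨h0, h1, h2, -⟩ := hx
  rw [Phi0, h2, h2, h2, h2]
  have := var_nonneg h0 h1
  linarith

lemma tet_neg {H : Finset (Finset (Fin N))} {x : EuclideanSpace ℝ (Fin (N + 4))}
    (hx : IsTet x) : Phi H x 0 < 0 := by
  obtain ⟨h0, h1, h2⟩ := hx
  rw [Phi0]
  have e1 : m1 (aa x) = 0 := by
    unfold m1
    exact sum_eq_zero (fun i _ => by rw [h0 i, zero_mul])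
  have e2 : m2 (aa x) = 0 := by
    unfold m2
    exact sum_eq_zero (fun i _ => by rw [h0 i, zero_mul])
  rw [e1, e2]
  rw [Fin.sum_univ_four] at h2
  have := h1 1
  nlinarith

lemma main_inj {H : Finset (Finset (Fin N))} (hH3 : ∀ T ∈ H, T.card = 3)
    (hH : ∀ T ∈ H, ∀ T' ∈ H, T ≠ T' → (T ∩ T').card ≤ 1)
    {x y : EuclideanSpace ℝ (Fin (N + 4))} (hx : IsMain H x) (hy : IsMain H y)
    (hxy : Phi H x = Phi H y) : x = y := by
  have e0 : Phi H x 0 = Phi H y 0 := by rw [hxy]
  have e1 : Phi H x 1 = Phi H y 1 := by rw [hxy]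
  have e2 : Phi H x 2 = Phi H y 2 := by rw [hxy]
  obtain ⟨x0, x1, x2, x3⟩ := hx
  obtain ⟨y0, y1, y2, y3⟩ := hy
  rw [Phi0, Phi0, x2, x2, x2, x2, y2, y2, y2, y2] at e0
  rw [Phi1, Phi1, x2, y2] at e1
  rw [Phi2, Phi2, x2, y2] at e2
  have hbb : bb x = bb y := by
    funext k
    rw [x2, y2]
  have hm1 : m1 (aa x) = m1 (aa y) := by linarith
  have hm2 : m2 (aa x) = m2 (aa y) := by rw [hm1] at e0; linarith
  apply ext_ab _ hbb
  by_cases hv : m2 (aa x) - m1 (aa x) ^ 2 = 0
  · obtain ⟨i, hi⟩ := var_zero x0 x1 hv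
    rw [hm1, hm2] at hv
    obtain ⟨j, hj⟩ := var_zero y0 y1 hv
    have h1 := (var_vertex hi).1
    have h2 := (var_vertex hj).1
    have h3 : i = j := zz_inj (by rw [← h1, ← h2, hm1])
    funext k
    rw [hi k, hj k, h3]
  · have hv' : m2 (aa y) - m1 (aa y) ^ 2 ≠ 0 := by rw [← hm1, ← hm2]; exact hv
    obtain ⟨T, hT, hxT⟩ : ∃ T ∈ H, ∀ i, i ∉ T → aa x i = 0 := by
      rcases x3 with h | ⟨i, hi⟩
      · exact h
      · exfalso
        apply hv
        rw [(var_vertex hi).1, (var_vertex hi).2, sub_self]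
    obtain ⟨T', hT', hyT⟩ : ∃ T ∈ H, ∀ i, i ∉ T → aa y i = 0 := by
      rcases y3 with h | ⟨i, hi⟩
      · exact h
      · exfalso
        apply hv'
        rw [(var_vertex hi).1, (var_vertex hi).2, sub_self]
    have g1 := GG_eq hH hT x1 hxT
    have g2 := GG_eq hH hT' y1 hyT
    have g3 : sl T = sl T' := by
      have g4 : sl T * (m2 (aa x) - m1 (aa x) ^ 2) = sl T' * (m2 (aa x) - m1 (aa x) ^ 2) := by
        rw [← g1]
        rw [hm1, hm2, ← g2]
        linarith
      exact mul_right_cancel₀ hv g4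
    have hTT := sl_inj g3
    subst hTT
    exact unique_on (hH3 T hT) hxT hyT (by rw [x1, y1]) hm1 hm2

lemma tet_inj {H : Finset (Finset (Fin N))}
    {x y : EuclideanSpace ℝ (Fin (N + 4))} (hx : IsTet x) (hy : IsTet y)
    (hxy : Phi H x = Phi H y) : x = y := by
  have e0 : Phi H x 0 = Phi H y 0 := by rw [hxy]
  have e1 : Phi H x 1 = Phi H y 1 := by rw [hxy]
  have e2 : Phi H x 2 = Phi H y 2 := by rw [hxy]
  obtain ⟨x0, x1, x2⟩ := hx
  obtain ⟨y0, y1, y2⟩ := hy
  have haa : aa x = aa y := by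
    funext i
    rw [x0, y0]
  rw [Phi0, Phi0, haa] at e0
  rw [Phi1, Phi1, haa] at e1
  rw [Phi2, Phi2, haa] at e2
  rw [Fin.sum_univ_four] at x2 y2
  apply ext_ab haa
  have f3 : bb x 3 = bb y 3 := by linarith
  have f2 : bb x 2 = bb y 2 := by linarith
  have f1 : bb x 1 = bb y 1 := by linarith
  have f0 : bb x 0 = bb y 0 := by linarith
  funext k
  fin_cases k
  · exact f0
  · exact f1
  · exact f2
  · exact f3

theorem Phi_inj {H : Finset (Finset (Fin N))} (hH3 : ∀ T ∈ H, T.card = 3)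
    (hH : ∀ T ∈ H, ∀ T' ∈ H, T ≠ T' → (T ∩ T').card ≤ 1)
    {x y : EuclideanSpace ℝ (Fin (N + 4))} (hx : IsMain H x ∨ IsTet x) (hy : IsMain H y ∨ IsTet y)
    (hxy : Phi H x = Phi H y) : x = y := by
  rcases hx with hx | hx <;> rcases hy with hy | hy
  · exact main_inj hH3 hH hx hy hxy
  · have h1 := main_nonneg hx
    have h2 := tet_neg (H := H) hy
    rw [hxy] at h1
    linarith
  · have h1 := main_nonneg hy
    have h2 := tet_neg (H := H) hx
    rw [hxy] at h2
    linarith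
  · exact tet_inj hx hy hxy

end embed

end Pool.Agent.H57.LinDim
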