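import Mathlib
import Pool.Agent.H57.LinDim.Base
import Pool.Agent.H57.LinDim.Count

set_option autoImplicit false
set_option linter.unusedSectionVars false
set_option linter.unusedVariables false

/-!
# A linear system of triples without a geometric realisation in dimension four
-/

namespace Pool.Agent.H57.LinDim

open Finset

/-- the first triangle of a six-tuple -/
def T0 {N : ℕ} (w : Fin 6 → Fin N) : Finset (Fin N) := {w 0, w 1, w 2}

/-- the second triangle of a six-tuple -/
def T1 {N : ℕ} (w : Fin 6 → Fin N) : Finset (Fin N) := {w 3, w 4, w 5}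

lemma T0_card {N : ℕ} {w : Fin 6 → Fin N} (hw : Function.Injective w) : (T0 w).card = 3 := by
  unfold T0
  rw [card_eq_three]
  exact ⟨w 0, w 1, w 2, hw.ne (by decide), hw.ne (by decide), hw.ne (by decide), rfl⟩

lemma T1_card {N : ℕ} {w : Fin 6 → Fin N} (hw : Function.Injective w) : (T1 w).card = 3 := by
  unfold T1
  rw [card_eq_three]
  exact ⟨w 3, w 4, w 5, hw.ne (by decide), hw.ne (by decide), hw.ne (by decide), rfl⟩

lemma mem_T0 {N : ℕ} {w : Fin 6 → Fin N} {a : Fin N} (h : a ∈ T0 w) : ∃ k, w k = a := by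
  unfold T0 at h
  simp only [mem_insert, mem_singleton] at h
  rcases h with h | h | h <;> exact ⟨_, h.symm⟩

lemma mem_T1 {N : ℕ} {w : Fin 6 → Fin N} {a : Fin N} (h : a ∈ T1 w) : ∃ k, w k = a := by
  unfold T1 at h
  simp only [mem_insert, mem_singleton] at h
  rcases h with h | h | h <;> exact ⟨_, h.symm⟩

lemma T01_disj {N : ℕ} {w : Fin 6 → Fin N} (hw : Function.Injective w) : Disjoint (T0 w) (T1 w) := by
  rw [Finset.disjoint_left]
  intro a h0 h1
  unfold T0 at h0
  unfold T1 at h1
  simp only [mem_insert, mem_singleton] at h0 h1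
  rcases h0 with rfl | rfl | rfl <;> rcases h1 with h | h | h <;>
    exact absurd (hw h) (by decide)

lemma inter_card_le {N : ℕ} {w w' : Fin 6 → Fin N} (h : Apart w w') (A B : Finset (Fin N))
    (hA : ∀ a ∈ A, ∃ k, w k = a) (hB : ∀ a ∈ B, ∃ k, w' k = a) : (A ∩ B).card ≤ 1 := by
  rw [card_le_one]
  intro a ha b hb
  rw [mem_inter] at ha hb
  obtain ⟨i, rfl⟩ := hA a ha.1
  obtain ⟨j, rfl⟩ := hA b hb.1
  by_contra hne
  exact h i j (fun hij => hne (by rw [hij])) ⟨hB _ ha.2, hB _ hb.2⟩

/-- a linear map into `ℝ⁴` -/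
noncomputable def rho (m : ℕ) : EuclideanSpace ℝ (Fin m) →ₗ[ℝ] (Fin 4 → ℝ) where
  toFun x := fun a => if h : (a : ℕ) < m then x ⟨a, h⟩ else 0
  map_add' := by
    intro x y
    funext a
    by_cases h : (a : ℕ) < m
    · simp [h]
    · simp [h]
  map_smul' := by
    intro c x
    funext a
    by_cases h : (a : ℕ) < m
    · simp [h]
    · simp [h]

lemma rho_inj {m : ℕ} (hm : m ≤ 4) : Function.Injective (rho m) := by
  intro x y h
  ext i
  have h1 := congrFun h ⟨i, lt_of_lt_of_le i.2 hm⟩
  have h2 : ((⟨i, lt_of_lt_of_le i.2 hm⟩ : Fin 4) : ℕ) < m := i.2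
  simp only [rho, LinearMap.coe_mk, AddHom.coe_mk] at h1
  rw [dif_pos h2, dif_pos h2] at h1
  exact h1

theorem exists_H : ∃ (N : ℕ) (H : Finset (Finset (Fin N))), (∀ T ∈ H, T.card = 3) ∧
    (∀ T ∈ H, ∀ T' ∈ H, T ≠ T' → (T ∩ T').card ≤ 1) ∧
    ∀ m, m ≤ 4 → ∀ p : Fin N → EuclideanSpace ℝ (Fin m), ∃ T ∈ H, ∃ T' ∈ H, Disjoint T T' ∧
      ∃ z, z ∈ hull p T ∧ z ∈ hull p T' := by
  classical
  obtain ⟨N, L, hinj, hap, hcr⟩ := exists_system
  refine ⟨N, L.image T0 ∪ L.image T1, ?_, ?_, ?_⟩
  · intro T hT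
    rw [mem_union, mem_image, mem_image] at hT
    rcases hT with ⟨w, hw, rfl⟩ | ⟨w, hw, rfl⟩
    · exact T0_card (hinj w hw)
    · exact T1_card (hinj w hw)
  · intro T hT T' hT' hne
    have hform : ∀ T ∈ L.image T0 ∪ L.image T1, ∃ w ∈ L, (T = T0 w ∨ T = T1 w) ∧
        ∀ a ∈ T, ∃ k, w k = a := by
      intro T hT
      rw [mem_union, mem_image, mem_image] at hT
      rcases hT with ⟨w, hw, rfl⟩ | ⟨w, hw, rfl⟩
      · exact ⟨w, hw, Or.inl rfl, fun a ha => mem_T0 ha⟩
      · exact ⟨w, hw, Or.inr rfl, fun a ha => mem_T1 ha⟩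
    obtain ⟨w, hw, hT1, hT2⟩ := hform T hT
    obtain ⟨w', hw', hT1', hT2'⟩ := hform T' hT'
    by_cases hww : w = w'
    · subst hww
      have hd := T01_disj (hinj w hw)
      rcases hT1 with rfl | rfl <;> rcases hT1' with rfl | rfl
      · exact absurd rfl hne
      · rw [Finset.disjoint_iff_inter_eq_empty.mp hd]; simp
      · rw [Finset.disjoint_iff_inter_eq_empty.mp hd.symm]; simp
      · exact absurd rfl hne
    · exact inter_card_le (hap w hw w' hw' hww) T T' hT2 hT2'
  · intro m hm p
    obtain ⟨w, hw, μ, ⟨⟨p0, p1, p2⟩, ⟨n3, n4, n5⟩, s1, s2⟩, hμ⟩ := hcr (fun i => rho m (p i))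
    refine ⟨T0 w, mem_union_left _ (mem_image_of_mem _ hw), T1 w,
      mem_union_right _ (mem_image_of_mem _ hw), T01_disj (hinj w hw),
      μ 0 • p (w 0) + μ 1 • p (w 1) + μ 2 • p (w 2), ?_, ?_⟩
    · have h0 : p (w 0) ∈ hull p (T0 w) := vertex_mem_hull p (by simp [T0])
      have h1 : p (w 1) ∈ hull p (T0 w) := vertex_mem_hull p (by simp [T0])
      have h2 : p (w 2) ∈ hull p (T0 w) := vertex_mem_hull p (by simp [T0])
      have h3 := (convex_hull p (T0 w)).sum_mem (t := (univ : Finset (Fin 3)))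
        (w := ![μ 0, μ 1, μ 2]) (z := ![p (w 0), p (w 1), p (w 2)])
        (by
          intro i _
          fin_cases i
          · exact p0
          · exact p1
          · exact p2) (by
          rw [Fin.sum_univ_three]
          exact s1) (by
          intro i _
          fin_cases i
          · exact h0
          · exact h1
          · exact h2)
      rw [Fin.sum_univ_three] at h3
      exact h3
    · have hz : μ 0 • p (w 0) + μ 1 • p (w 1) + μ 2 • p (w 2) =
          (-μ 3) • p (w 3) + (-μ 4) • p (w 4) + (-μ 5) • p (w 5) := by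
        apply rho_inj hm
        simp only [map_add, map_smul]
        rw [Fin.sum_univ_six] at hμ
        have := hμ
        rw [← sub_eq_zero, ← this]
        simp only [neg_smul]
        abel
      rw [hz]
      have h0 : p (w 3) ∈ hull p (T1 w) := vertex_mem_hull p (by simp [T1])
      have h1 : p (w 4) ∈ hull p (T1 w) := vertex_mem_hull p (by simp [T1])
      have h2 : p (w 5) ∈ hull p (T1 w) := vertex_mem_hull p (by simp [T1])
      have h3 := (convex_hull p (T1 w)).sum_mem (t := (univ : Finset (Fin 3)))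
        (w := ![-μ 3, -μ 4, -μ 5]) (z := ![p (w 3), p (w 4), p (w 5)])
        (by
          intro i _
          fin_cases i
          · exact neg_nonneg.mpr n3
          · exact neg_nonneg.mpr n4
          · exact neg_nonneg.mpr n5) (by
          rw [Fin.sum_univ_three]
          show -μ 3 + -μ 4 + -μ 5 = 1
          linarith) (by
          intro i _
          fin_cases i
          · exact h0
          · exact h1
          · exact h2)
      rw [Fin.sum_univ_three] at h3
      exact h3

end Pool.Agent.H57.LinDim
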