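import Mathlib
import Pool.Agent.H57.LinDim.System
import Pool.Agent.H57.LinDim.Embed

set_option autoImplicit false
set_option linter.unusedSectionVars false
set_option linter.unusedVariables false

/-!
# A simplicial complex of dimension two with `a = 3` and `b ≥ 5`
-/

namespace Pool.Agent.H57.LinDim

open Finset

section

variable {N : ℕ}

/-- a set of vertices among the first `N` vertices -/
def up (T : Finset (Fin N)) : Finset (Fin (N + 4)) := T.map (Fin.castAddEmb 4)

/-- a face of the tetrahedron on the last four vertices -/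
def fc (N : ℕ) (j : Fin 4) : Finset (Fin (N + 4)) := (univ.erase j).map (Fin.natAddEmb N)

lemma castAdd_mem_up {T : Finset (Fin N)} {i : Fin N} : Fin.castAdd 4 i ∈ up T ↔ i ∈ T := by
  unfold up
  rw [mem_map]
  constructor
  · rintro ⟨j, hj, h⟩
    have : j = i := Fin.castAdd_injective N 4 h
    rw [← this]
    exact hj
  · intro h
    exact ⟨i, h, rfl⟩

lemma natAdd_not_mem_up {T : Finset (Fin N)} {k : Fin 4} : Fin.natAdd N k ∉ up T := by
  unfold up
  rw [mem_map]
  rintro ⟨j, hj, h⟩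
  have h1 := congrArg Fin.val h
  simp at h1
  have := j.2
  omega

lemma castAdd_not_mem_fc {j : Fin 4} {i : Fin N} : Fin.castAdd 4 i ∉ fc N j := by
  unfold fc
  rw [mem_map]
  rintro ⟨k, hk, h⟩
  have h1 := congrArg Fin.val h
  simp at h1
  have := i.2
  omega

lemma natAdd_mem_fc {j k : Fin 4} : Fin.natAdd N k ∈ fc N j ↔ k ≠ j := by
  unfold fc
  rw [mem_map]
  constructor
  · rintro ⟨l, hl, h⟩
    have : l = k := Fin.natAdd_injective 4 N h
    rw [← this]
    exact (mem_erase.mp hl).1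
  · intro h
    exact ⟨k, mem_erase.mpr ⟨h, mem_univ _⟩, rfl⟩

/-- the simplices of the complex: the nonempty subsets of the triangles in `H`, the proper faces of
a tetrahedron, and all vertices -/
noncomputable def MM (H : Finset (Finset (Fin N))) : Finset (Finset (Fin (N + 4))) := by
  classical
  exact univ.filter (fun s => s.Nonempty ∧ ((∃ T ∈ H, s ⊆ up T) ∨ (∃ j, s ⊆ fc N j) ∨ ∃ i, s = {i}))

lemma mem_MM {H : Finset (Finset (Fin N))} {s : Finset (Fin (N + 4))} : s ∈ MM H ↔
    s.Nonempty ∧ ((∃ T ∈ H, s ⊆ up T) ∨ (∃ j, s ⊆ fc N j) ∨ ∃ i, s = {i}) := by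
  unfold MM
  rw [mem_filter]
  simp

lemma MM_sing (H : Finset (Finset (Fin N))) (i : Fin (N + 4)) : {i} ∈ MM H :=
  mem_MM.mpr ⟨singleton_nonempty i, Or.inr (Or.inr ⟨i, rfl⟩)⟩

lemma MM_down (H : Finset (Finset (Fin N))) : ∀ s ∈ MM H, ∀ t, t ⊆ s → t.Nonempty → t ∈ MM H := by
  intro s hs t hts ht
  rw [mem_MM] at hs ⊢
  refine ⟨ht, ?_⟩
  rcases hs.2 with ⟨T, hT, h⟩ | ⟨j, h⟩ | ⟨i, h⟩
  · exact Or.inl ⟨T, hT, hts.trans h⟩
  · exact Or.inr (Or.inl ⟨j, hts.trans h⟩)
  · right
    right
    rw [h] at hts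
    exact ⟨i, (subset_singleton_iff.mp hts).resolve_left ht.ne_empty⟩

lemma MM_cert (H : Finset (Finset (Fin N))) : Cert (MM H) (std (N + 4)) :=
  std_cert (MM H) (fun s hs => (mem_MM.mp hs).1) (MM_sing H) (MM_down H)

lemma MM_card {H : Finset (Finset (Fin N))} (hH3 : ∀ T ∈ H, T.card = 3) :
    ∀ s ∈ MM H, s.card ≤ 3 := by
  intro s hs
  rcases (mem_MM.mp hs).2 with ⟨T, hT, h⟩ | ⟨j, h⟩ | ⟨i, h⟩
  · refine (card_le_card h).trans ?_
    unfold up
    rw [card_map, hH3 T hT]
  · refine (card_le_card h).trans ?_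
    unfold fc
    rw [card_map, card_erase_of_mem (mem_univ j)]
    simp
  · rw [h, card_singleton]
    norm_num

/-- the complex -/
noncomputable def CC (H : Finset (Finset (Fin N))) : Cplx (N + 4) := (MM_cert H).cplx

lemma CC_members (H : Finset (Finset (Fin N))) :
    (CC H).members = (fun s => hull (std (N + 4)) s) '' (MM H : Set (Finset (Fin (N + 4)))) := rfl

lemma mem_support {H : Finset (Finset (Fin N))} {x : EuclideanSpace ℝ (Fin (N + 4))} :
    x ∈ (CC H).support ↔ ∃ s ∈ MM H, x ∈ hull (std (N + 4)) s := by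
  unfold Cplx.support
  rw [CC_members]
  constructor
  · rintro ⟨_, ⟨s, hs, rfl⟩, hx⟩
    exact ⟨s, hs, hx⟩
  · rintro ⟨s, hs, hx⟩
    exact ⟨_, ⟨s, hs, rfl⟩, hx⟩

lemma isCompact_support (H : Finset (Finset (Fin N))) : IsCompact (CC H).support := by
  have : (CC H).support = ⋃ s ∈ MM H, hull (std (N + 4)) s := by
    ext x
    rw [mem_support]
    simp
  rw [this]
  exact (MM H).isCompact_biUnion (fun s _ => isCompact_hull _ _)

lemma support_cases {H : Finset (Finset (Fin N))} {x : EuclideanSpace ℝ (Fin (N + 4))}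
    (hx : x ∈ (CC H).support) : IsMain H x ∨ IsTet x := by
  obtain ⟨s, hs, hxs⟩ := mem_support.mp hx
  obtain ⟨h0, h1, h2⟩ := (mem_hull_std s x).mp hxs
  rw [Fin.sum_univ_add] at h1
  have h1' : ∑ i, aa x i + ∑ k, bb x k = 1 := h1
  rcases (mem_MM.mp hs).2 with ⟨T, hT, h⟩ | ⟨j, h⟩ | ⟨i, h⟩
  · left
    have hb : ∀ k, bb x k = 0 := fun k => h2 _ (fun hk => natAdd_not_mem_up (h hk))
    refine ⟨fun i => h0 _, ?_, hb, Or.inl ⟨T, hT, fun i hi => h2 _ (fun hk => hi ?_)⟩⟩
    · rw [sum_eq_zero (fun k _ => hb k), add_zero] at h1'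
      exact h1'
    · exact castAdd_mem_up.mp (h hk)
  · right
    have ha : ∀ i, aa x i = 0 := fun i => h2 _ (fun hi => castAdd_not_mem_fc (h hi))
    refine ⟨ha, fun k => h0 _, ?_⟩
    rw [sum_eq_zero (fun k _ => ha k), zero_add] at h1'
    exact h1'
  · revert h
    refine Fin.addCases (fun i h => ?_) (fun k h => ?_) i
    · left
      have hb : ∀ k, bb x k = 0 := by
        intro k
        apply h2
        rw [h, mem_singleton]
        intro hk
        have h3 := congrArg Fin.val hk
        simp at h3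
        have := i.2
        omega
      have ha : ∀ j, j ≠ i → aa x j = 0 := by
        intro j hj
        apply h2
        rw [h, mem_singleton]
        intro hk
        exact hj (Fin.castAdd_injective N 4 hk)
      rw [sum_eq_zero (fun k _ => hb k), add_zero] at h1'
      refine ⟨fun i => h0 _, h1', hb, Or.inr ⟨i, fun j => ?_⟩⟩
      split_ifs with hj
      · rw [hj, ← h1']
        exact (sum_eq_single i (fun j _ hj => ha j hj) (fun h => absurd (mem_univ i) h)).symm
      · exact ha j hj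
    · right
      have ha : ∀ i, aa x i = 0 := by
        intro i
        apply h2
        rw [h, mem_singleton]
        intro hk
        have h3 := congrArg Fin.val hk
        simp at h3
        have := i.2
        omega
      refine ⟨ha, fun k => h0 _, ?_⟩
      rw [sum_eq_zero (fun k _ => ha k), zero_add] at h1'
      exact h1'

/-- the upper bound for `a` -/
theorem a_upper {H : Finset (Finset (Fin N))} (hH3 : ∀ T ∈ H, T.card = 3)
    (hH : ∀ T ∈ H, ∀ T' ∈ H, T ≠ T' → (T ∩ T').card ≤ 1) :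
    ∃ T : Set (EuclideanSpace ℝ (Fin 3)), Nonempty ((CC H).support ≃ₜ T) := by
  let Φ : (CC H).support → E3 := fun x => Phi H x.1
  have hΦ : Continuous Φ := (Phi_cont H).comp continuous_subtype_val
  have hinj : Function.Injective Φ := by
    intro x y hxy
    exact Subtype.ext (Phi_inj hH3 hH (support_cases x.2) (support_cases y.2) hxy)
  have : CompactSpace (CC H).support := isCompact_iff_compactSpace.mp (isCompact_support H)
  have hemb := (hΦ.isClosedEmbedding hinj).isEmbedding
  exact ⟨Set.range Φ, ⟨hemb.toHomeomorph⟩⟩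

/-! ### The sphere in the complex -/

/-- linear coordinates with sum zero -/
def al (x : E3) : Fin 4 → ℝ := ![x 0, x 1, x 2, -(x 0 + x 1 + x 2)]

lemma al_sum (x : E3) : ∑ k, al x k = 0 := by
  rw [Fin.sum_univ_four]
  show x 0 + x 1 + x 2 + -(x 0 + x 1 + x 2) = 0
  ring

lemma al_cont : Continuous al := by
  have hx : ∀ i : Fin 3, Continuous (fun x : E3 => x i) :=
    fun i => (EuclideanSpace.proj (𝕜 := ℝ) i).continuous
  apply continuous_pi
  intro k
  fin_cases k
  · exact hx 0
  · exact hx 1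
  · exact hx 2
  · exact (((hx 0).add (hx 1)).add (hx 2)).neg

/-- the smallest coordinate -/
noncomputable def mn (x : E3) : ℝ := min (min (al x 0) (al x 1)) (min (al x 2) (al x 3))

lemma mn_cont : Continuous mn := by
  have h : ∀ k : Fin 4, Continuous (fun x : E3 => al x k) := fun k =>
    (continuous_apply k).comp al_cont
  exact ((h 0).min (h 1)).min ((h 2).min (h 3))

lemma mn_le (x : E3) (k : Fin 4) : mn x ≤ al x k := by
  unfold mn
  fin_cases k
  · exact (min_le_left _ _).trans (min_le_left _ _)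
  · exact (min_le_left _ _).trans (min_le_right _ _)
  · exact (min_le_right _ _).trans (min_le_left _ _)
  · exact (min_le_right _ _).trans (min_le_right _ _)

lemma mn_eq (x : E3) : ∃ k, al x k = mn x := by
  unfold mn
  rcases min_choice (min (al x 0) (al x 1)) (min (al x 2) (al x 3)) with h | h
  · rcases min_choice (al x 0) (al x 1) with h' | h'
    · exact ⟨0, by rw [h, h']⟩
    · exact ⟨1, by rw [h, h']⟩
  · rcases min_choice (al x 2) (al x 3) with h' | h'
    · exact ⟨2, by rw [h, h']⟩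
    · exact ⟨3, by rw [h, h']⟩

lemma mn_neg {x : E3} (hx : x ≠ 0) : mn x < 0 := by
  by_contra hcon
  push Not at hcon
  have h1 : ∀ k, 0 ≤ al x k := fun k => hcon.trans (mn_le x k)
  have h2 := (sum_eq_zero_iff_of_nonneg (fun k _ => h1 k)).mp (al_sum x)
  apply hx
  ext i
  fin_cases i
  · exact h2 0 (mem_univ _)
  · exact h2 1 (mem_univ _)
  · exact h2 2 (mem_univ _)

/-- the point of the surface of the tetrahedron -/
noncomputable def tt (x : E3) (k : Fin 4) : ℝ := 1 / 4 - al x k / (4 * mn x)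

lemma tt_nonneg {x : E3} (hx : x ≠ 0) (k : Fin 4) : 0 ≤ tt x k := by
  unfold tt
  have h1 := mn_neg hx
  have h2 := mn_le x k
  rw [sub_nonneg, div_le_iff_of_neg (by linarith)]
  linarith

lemma tt_sum (x : E3) : ∑ k, tt x k = 1 := by
  unfold tt
  have h : ∑ k, al x k / (4 * mn x) = 0 := by
    rw [← sum_div, al_sum, zero_div]
  rw [sum_sub_distrib, h]
  simp

lemma tt_zero {x : E3} (hx : x ≠ 0) : ∃ k, tt x k = 0 := by
  obtain ⟨k, hk⟩ := mn_eq x
  refine ⟨k, ?_⟩
  unfold tt
  rw [hk]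
  have h1 := (mn_neg hx).ne
  field_simp
  ring

/-- the same point in the complex -/
noncomputable def sp (N : ℕ) (x : E3) : EuclideanSpace ℝ (Fin (N + 4)) :=
  WithLp.toLp 2 (Fin.append (fun _ : Fin N => (0 : ℝ)) (tt x))

lemma aa_sp (x : E3) (i : Fin N) : aa (sp N x) i = 0 := by
  show Fin.append (fun _ : Fin N => (0 : ℝ)) (tt x) (Fin.castAdd 4 i) = 0
  rw [Fin.append_left]

lemma bb_sp (x : E3) (k : Fin 4) : bb (sp N x) k = tt x k := by
  show Fin.append (fun _ : Fin N => (0 : ℝ)) (tt x) (Fin.natAdd N k) = tt x k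
  rw [Fin.append_right]

lemma sp_mem (H : Finset (Finset (Fin N))) {x : E3} (hx : x ≠ 0) : sp N x ∈ (CC H).support := by
  obtain ⟨j, hj⟩ := tt_zero hx
  rw [mem_support]
  refine ⟨fc N j, ?_, ?_⟩
  · rw [mem_MM]
    refine ⟨?_, Or.inr (Or.inl ⟨j, Subset.rfl⟩)⟩
    obtain ⟨k, hk⟩ := exists_ne j
    exact ⟨Fin.natAdd N k, natAdd_mem_fc.mpr hk⟩
  · rw [mem_hull_std]
    refine ⟨?_, ?_, ?_⟩
    · intro i
      refine Fin.addCases (fun i => ?_) (fun k => ?_) i
      · exact (aa_sp x i).ge
      · have : sp N x (Fin.natAdd N k) = tt x k := bb_sp x k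
        rw [this]
        exact tt_nonneg hx k
    · rw [Fin.sum_univ_add]
      have e1 : ∑ i : Fin N, sp N x (Fin.castAdd 4 i) = 0 := sum_eq_zero (fun i _ => aa_sp x i)
      have e2 : ∑ k : Fin 4, sp N x (Fin.natAdd N k) = ∑ k, tt x k :=
        sum_congr rfl (fun k _ => bb_sp x k)
      rw [e1, e2, tt_sum, zero_add]
    · intro i
      refine Fin.addCases (fun i _ => aa_sp x i) (fun k hk => ?_) i
      have h1 : k = j := by
        by_contra hne
        exact hk (natAdd_mem_fc.mpr hne)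
      have : sp N x (Fin.natAdd N k) = tt x k := bb_sp x k
      rw [this, h1]
      exact hj

lemma sp_cont : ContinuousOn (sp N) (Metric.sphere (0 : E3) 1) := by
  have htt : ∀ k, ContinuousOn (fun x => tt x k) (Metric.sphere (0 : E3) 1) := by
    intro k
    unfold tt
    apply ContinuousOn.sub continuousOn_const
    apply ContinuousOn.div
    · exact ((continuous_apply k).comp al_cont).continuousOn
    · exact (continuous_const.mul mn_cont).continuousOn
    · intro x hx
      have hx0 : x ≠ 0 := by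
        intro h0
        rw [h0, mem_sphere_zero_iff_norm, norm_zero] at hx
        exact zero_ne_one hx
      exact mul_ne_zero (by norm_num) (mn_neg hx0).ne
  unfold sp
  apply (PiLp.continuous_toLp 2 _).comp_continuousOn
  apply continuousOn_pi.mpr
  intro i
  refine Fin.addCases (fun i => ?_) (fun k => ?_) i
  · simp only [Fin.append_left]
    exact continuousOn_const
  · simp only [Fin.append_right]
    exact htt k

lemma sp_inj {x y : E3} (hx : ‖x‖ = 1) (hy : ‖y‖ = 1) (h : sp N x = sp N y) : x = y := by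
  have hx0 : x ≠ 0 := by
    intro h0
    rw [h0, norm_zero] at hx
    exact zero_ne_one hx
  have hy0 : y ≠ 0 := by
    intro h0
    rw [h0, norm_zero] at hy
    exact zero_ne_one hy
  have h1 : ∀ k, tt x k = tt y k := by
    intro k
    rw [← bb_sp (N := N) x k, ← bb_sp (N := N) y k, h]
  have hmx := mn_neg hx0
  have hmy := mn_neg hy0
  set c := mn x / mn y with hc
  have hcpos : 0 < c := div_pos_of_neg_of_neg hmx hmy
  have h2 : ∀ k, al x k = c * al y k := by
    intro k
    have h3 := h1 k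
    unfold tt at h3
    have h4 : al x k / (4 * mn x) = al y k / (4 * mn y) := by linarith
    have h5 := hmx.ne
    have h6 := hmy.ne
    rw [hc]
    field_simp at h4 ⊢
    linarith
  have h3 : x = c • y := by
    ext i
    fin_cases i
    · exact h2 0
    · exact h2 1
    · exact h2 2
  have h4 : c = 1 := by
    have h5 := congrArg norm h3
    rw [norm_smul, hx, hy, Real.norm_eq_abs, abs_of_pos hcpos, mul_one] at h5
    exact h5.symm
  rw [h3, h4, one_smul]

/-- the lower bound for `a` -/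
theorem a_lower (H : Finset (Finset (Fin N))) {m : ℕ} (T : Set (EuclideanSpace ℝ (Fin m)))
    (h : (CC H).support ≃ₜ T) : 3 ≤ m := by
  classical
  by_contra hcon
  push Not at hcon
  have hne : ∀ x ∈ Metric.sphere (0 : E3) 1, x ≠ 0 := by
    intro x hx h0
    rw [h0, mem_sphere_zero_iff_norm, norm_zero] at hx
    exact zero_ne_one hx
  let f : E3 → ℂ := fun x => if hx : x ≠ 0 then
    toC (h ⟨_, sp_mem H hx⟩ : EuclideanSpace ℝ (Fin m)) else 0
  have hf : ContinuousOn f (Metric.sphere 0 1) := by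
    rw [continuousOn_iff_continuous_domRestrict]
    have h1 : (Metric.sphere (0 : E3) 1).domRestrict f = fun x =>
        toC (h ⟨_, sp_mem H (hne x.1 x.2)⟩ : EuclideanSpace ℝ (Fin m)) := by
      funext x
      show f x.1 = _
      exact dif_pos (hne x.1 x.2)
    rw [h1]
    apply toC_cont.comp
    apply continuous_subtype_val.comp
    apply h.continuous.comp
    apply Continuous.subtype_mk
    exact continuousOn_iff_continuous_domRestrict.mp sp_cont
  refine no_sphere_embedding f hf ?_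
  intro x hx y hy hxy
  have hx0 := hne x hx
  have hy0 := hne y hy
  have e1 : f x = toC (h ⟨_, sp_mem H hx0⟩ : EuclideanSpace ℝ (Fin m)) := dif_pos hx0
  have e2 : f y = toC (h ⟨_, sp_mem H hy0⟩ : EuclideanSpace ℝ (Fin m)) := dif_pos hy0
  rw [e1, e2] at hxy
  have h1 := toC_inj (by omega) hxy
  have h2 := h.injective (Subtype.ext h1)
  have h3 := congrArg Subtype.val h2
  exact sp_inj (mem_sphere_zero_iff_norm.mp hx) (mem_sphere_zero_iff_norm.mp hy) h3

theorem CC_a {H : Finset (Finset (Fin N))} (hH3 : ∀ T ∈ H, T.card = 3)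
    (hH : ∀ T ∈ H, ∀ T' ∈ H, T ≠ T' → (T ∩ T').card ≤ 1) : aDim (CC H) = 3 := by
  apply le_antisymm
  · exact Nat.sInf_le (a_upper hH3 hH)
  · apply le_csInf ⟨3, a_upper hH3 hH⟩
    rintro m ⟨T, ⟨h⟩⟩
    exact a_lower H T h

/-- the lower bound for `b` -/
theorem CC_b (H : Finset (Finset (Fin N)))
    (hcr : ∀ m, m ≤ 4 → ∀ p : Fin N → EuclideanSpace ℝ (Fin m), ∃ T ∈ H, ∃ T' ∈ H, Disjoint T T' ∧
      ∃ z, z ∈ hull p T ∧ z ∈ hull p T') (hH3 : ∀ T ∈ H, T.card = 3) : 5 ≤ bDim (CC H) := by
  apply le_csInf (show {m : ℕ | ∃ D : Cplx m, CombEquiv (CC H) D}.Nonempty from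
    ⟨N + 4, CC H, combEquiv_refl _⟩)
  rintro m ⟨D, hD⟩
  by_contra hcon
  push Not at hcon
  have hc := MM_cert H
  obtain ⟨p, hp⟩ := real_of_equiv (MM H) (std (N + 4)) hc.ne hc.sing
    (fun s hs t ht => hc.sub_iff hs ht) (CC H) (CC_members H) D hD
  obtain ⟨T, hT, T', hT', hdisj, z, hz, hz'⟩ := hcr m (by omega) (fun i => p (Fin.castAdd 4 i))
  have hup : ∀ T : Finset (Fin N), hull (fun i => p (Fin.castAdd 4 i)) T = hull p (up T) := by
    intro T
    unfold hull up
    congr 1
    ext x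
    constructor
    · rintro ⟨i, hi, rfl⟩
      exact ⟨Fin.castAdd 4 i, mem_coe.mpr (mem_map.mpr ⟨i, hi, rfl⟩), rfl⟩
    · rintro ⟨i, hi, rfl⟩
      obtain ⟨j, hj, rfl⟩ := mem_map.mp (mem_coe.mp hi)
      exact ⟨j, hj, rfl⟩
  rw [hup] at hz hz'
  have hM : ∀ T ∈ H, up T ∈ MM H := by
    intro T hT
    rw [mem_MM]
    refine ⟨?_, Or.inl ⟨T, hT, Subset.rfl⟩⟩
    unfold up
    rw [map_nonempty]
    apply card_pos.mp
    rw [hH3 T hT]
    norm_num
  obtain ⟨r, hr, hr1, hr2, hr3⟩ := hp.inter _ (hM T hT) _ (hM T' hT') z hz hz'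
  obtain ⟨i, hi⟩ := hull_nonempty hr3
  have h1 := hr1 hi
  have h2 := hr2 hi
  unfold up at h1 h2
  obtain ⟨j, hj, hji⟩ := mem_map.mp h1
  obtain ⟨j', hj', hji'⟩ := mem_map.mp h2
  have h3 : j = j' := (Fin.castAddEmb 4).injective (hji.trans hji'.symm)
  rw [← h3] at hj'
  exact Finset.disjoint_left.mp hdisj hj hj'

end

/-- **There is a simplicial `2`-complex with `a = 3` and `b ≥ 5`.** -/
theorem main : ∃ (n : ℕ) (C : Cplx n), IsSimplicial C ∧ IsTwoComplex C ∧ aDim C = 3 ∧
    5 ≤ bDim C := by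
  obtain ⟨N, H, hH3, hH, hcr⟩ := exists_H
  exact ⟨N + 4, CC H, std_simplicial (MM_cert H), std_two (MM_cert H) (MM_card hH3), CC_a hH3 hH,
    CC_b H hcr hH3⟩

end Pool.Agent.H57.LinDim
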